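import Pool.Agent.Work.MP_0d53be_an.Alg

/-!
# Z/AlgA: a dense orbit makes the algebra commutative

`A` complex normed algebra, `a : A`, `z : ℂ`, and `{orb a z n : n ≥ 1}` dense in `A`
(`orb a z n = a (z + a)^n`, `apow a n = a^n`, both computed in the unitization; file `../Alg.lean`).

* `comm_of_dense`: `A` is commutative. The elements `orb a z n`, `orb a z m` commute: as elements of the
  unitization (`Unitization.inr_injective`, `orb a z n` is the image of `a (z+a)^n`: the first
  component of that product is `0`; or by `orb_eq`), both are polynomials in `a`. For a fixed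
  `x` of the orbit `{y | x * y = y * x}` is closed and contains the dense orbit, so it is everything;
  then for an arbitrary `y` `{x | x * y = y * x}` is closed and contains the orbit.
* `orb_mem_span`: `orb a z n` is in the span of the powers `apow a (i+1)`, `i ≤ n`: `orb_eq`,
  `(z • 1 + mulL a)^n = ∑_i choose(n,i) z^(n-i) (mulL a)^i` (`Commute.add_pow`),
  `(mulL a)^i a = apow a (i+1)` (`mulL_self`).
* `apow_ne`: if `A` is not finite dimensional and the orbit is dense, `apow a (n+1) ≠ 0` for all `n`:
  otherwise `apow a (m+1) = 0` for all `m ≥ n` (`apow_mul`), the span of all powers is spanned by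
  finitely many vectors, hence finite dimensional and closed
  (`Submodule.closed_of_finiteDimensional`) and contains the dense orbit, so it is everything.
-/

set_option autoImplicit false

namespace Pool.Agent.Work.MP_0d53be_an.Full

variable {A : Type*} [NonUnitalNormedRing A] [NormedSpace ℂ A] [SMulCommClass ℂ A A]
  [IsScalarTower ℂ A A]

private theorem inr_orb (a : A) (z : ℂ) (n : ℕ) :
    ((orb a z n : A) : Unitization ℂ A) =
      (a : Unitization ℂ A) * (algebraMap ℂ (Unitization ℂ A) z + (a : Unitization ℂ A)) ^ n := by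
  have hc : Commute (a : Unitization ℂ A)
      (algebraMap ℂ (Unitization ℂ A) z + (a : Unitization ℂ A)) :=
    (Algebra.commute_algebraMap_right z _).add_right (Commute.refl _)
  rw [orb_eq, (hc.pow_right n).eq, pow_unit]

private theorem orb_comm (a : A) (z : ℂ) (n m : ℕ) :
    orb a z n * orb a z m = orb a z m * orb a z n := by
  have hc : Commute (a : Unitization ℂ A)
      (algebraMap ℂ (Unitization ℂ A) z + (a : Unitization ℂ A)) :=
    (Algebra.commute_algebraMap_right z _).add_right (Commute.refl _)
  have h1 : Commute ((a : Unitization ℂ A) *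
      (algebraMap ℂ (Unitization ℂ A) z + (a : Unitization ℂ A)) ^ n)
      ((a : Unitization ℂ A) *
      (algebraMap ℂ (Unitization ℂ A) z + (a : Unitization ℂ A)) ^ m) := by
    refine Commute.mul_left ?_ ?_
    · exact (Commute.refl _).mul_right (hc.pow_right m)
    · exact ((hc.symm.pow_left n).mul_right (((Commute.refl _).pow_left n).pow_right m))
  have h2 := h1.eq
  rw [← inr_orb, ← inr_orb, ← Unitization.inr_mul, ← Unitization.inr_mul] at h2
  exact Unitization.inr_injective h2

theorem comm_of_dense {a : A} {z : ℂ} (hd : Dense {x : A | ∃ n : ℕ, 1 ≤ n ∧ x = orb a z n}) :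
    ∀ x y : A, x * y = y * x := by
  have h1 : ∀ n : ℕ, ∀ y : A, orb a z n * y = y * orb a z n := by
    intro n
    have hcl : IsClosed {y : A | orb a z n * y = y * orb a z n} :=
      isClosed_eq (continuous_const.mul continuous_id) (continuous_id.mul continuous_const)
    have hsub : {x : A | ∃ n : ℕ, 1 ≤ n ∧ x = orb a z n} ⊆
        {y : A | orb a z n * y = y * orb a z n} := by
      rintro x ⟨m, -, rfl⟩
      exact orb_comm a z n m
    have hu := (hd.mono hsub).closure_eq
    rw [hcl.closure_eq] at hu
    intro y
    have : y ∈ {y : A | orb a z n * y = y * orb a z n} := by rw [hu]; trivial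
    exact this
  intro x y
  have hcl : IsClosed {x : A | x * y = y * x} :=
    isClosed_eq (continuous_id.mul continuous_const) (continuous_const.mul continuous_id)
  have hsub : {x : A | ∃ n : ℕ, 1 ≤ n ∧ x = orb a z n} ⊆ {x : A | x * y = y * x} := by
    rintro x ⟨m, -, rfl⟩
    exact h1 m y
  have hu := (hd.mono hsub).closure_eq
  rw [hcl.closure_eq] at hu
  have : x ∈ {x : A | x * y = y * x} := by rw [hu]; trivial
  exact this

theorem orb_mem_span (a : A) (z : ℂ) (n : ℕ) :
    orb a z n ∈ Submodule.span ℂ (Set.range fun i : ℕ => apow a (i + 1)) := by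
  have hc : Commute (z • (1 : A →L[ℂ] A)) (mulL a) :=
    (Commute.one_left (mulL a)).smul_left z
  rw [orb_eq, hc.add_pow, sum_apply]
  refine Submodule.sum_mem _ (fun i _ => ?_)
  have h1 : ((z • (1 : A →L[ℂ] A)) ^ i * mulL a ^ (n - i) * ((n.choose i : ℕ) : A →L[ℂ] A)) a =
      ((n.choose i : ℂ) * z ^ i) • apow a ((n - i) + 1) := by
    rw [← mulL_self]
    have h2 : (((n.choose i : ℕ) : A →L[ℂ] A)) = (n.choose i : ℂ) • (1 : A →L[ℂ] A) := by
      rw [Nat.cast_smul_eq_nsmul ℂ, nsmul_eq_mul, mul_one]
    rw [h2, smul_pow, one_pow]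
    simp only [smul_mul_assoc, mul_smul_comm, one_mul, mul_one, smul_apply,
      smul_smul]
  rw [h1]
  exact Submodule.smul_mem _ _ (Submodule.subset_span ⟨n - i, rfl⟩)

theorem apow_ne (hA : ¬ FiniteDimensional ℂ A) {a : A} {z : ℂ}
    (hd : Dense {x : A | ∃ n : ℕ, 1 ≤ n ∧ x = orb a z n}) (n : ℕ) : apow a (n + 1) ≠ 0 := by
  intro h0
  apply hA
  have hz : ∀ m : ℕ, apow a (n + m + 1) = 0 := by
    intro m
    induction m with
    | zero => simpa using h0
    | succ m ih =>
      have := apow_mul a (n + m)
      rw [show n + (m + 1) + 1 = n + m + 2 by ring, this, ih, zero_mul]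
  set S : Submodule ℂ A := Submodule.span ℂ (Set.range fun i : ℕ => apow a (i + 1)) with hS
  have hfin : (Set.range fun i : ℕ => apow a (i + 1)).Finite := by
    have : (Set.range fun i : ℕ => apow a (i + 1)) ⊆
        insert 0 ((fun i : ℕ => apow a (i + 1)) '' (Set.Iio n)) := by
      rintro _ ⟨i, rfl⟩
      by_cases hi : i < n
      · exact Or.inr ⟨i, hi, rfl⟩
      · left
        have := hz (i - n)
        rw [show n + (i - n) + 1 = i + 1 by omega] at this
        exact this
    exact ((Set.finite_Iio n).image _ |>.insert 0).subset this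
  have hfd : FiniteDimensional ℂ S := FiniteDimensional.span_of_finite ℂ hfin
  have hcl : IsClosed (S : Set A) := S.closed_of_finiteDimensional
  have hsub : {x : A | ∃ n : ℕ, 1 ≤ n ∧ x = orb a z n} ⊆ (S : Set A) := by
    rintro x ⟨m, -, rfl⟩
    exact orb_mem_span a z m
  have hu := (hd.mono hsub).closure_eq
  rw [hcl.closure_eq] at hu
  have htop : S = ⊤ := by
    rw [eq_top_iff]
    intro x _
    have : x ∈ (S : Set A) := by rw [hu]; trivial
    exact this
  rw [htop] at hfd
  exact (LinearEquiv.finiteDimensional (Submodule.topEquiv (R := ℂ) (M := A)))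

end Pool.Agent.Work.MP_0d53be_an.Full
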