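import Pool.Agent.Work.MP_0d53be_an.Full.Z.AlgA
import Pool.Agent.Work.MP_0d53be_an.Full.Defs

/-!
# Z/AlgB: transfer to a commutative Banach algebra with unit

`A` complex Banach algebra (maybe without unit), `a : A`, `z₀ : ℂ`, with `{orb a z₀ n : n ≥ 1}` dense
and `A` not finite dimensional. There are a commutative complex Banach algebra `B` with unit and
`b : B` with `QNb b`, `b^n ≠ 0` for all `n`, and `‖b (1 + w b)^n - l b‖ = ‖orb a z n - (l z^n) a‖` whenever
`z : ℂ`, `‖z‖ = 1`, `w = z⁻¹`, `l : ℂ`.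

Proof. `B = WithLp 1 (Unitization ℂ A)` (Mathlib, `Analysis/Normed/Algebra/UnitizationL1.lean`: normed
ring, complete, normed algebra); it is commutative as `A` is (`comm_of_dense`;
`Unitization` of a commutative ring; take `{ WithLp.instUnitizationNormedRing with mul_comm := … }`).
`b = toLp 1 (inr a)`.
* `b^(n+1)` is the image of `apow a (n+1)` (`apow_succ` in `../Alg.lean`), so `b^(n+1) ≠ 0` (`apow_ne`,
  `unitization_norm_inr`), `b^0 = 1 ≠ 0`.
* `b (1 + w b)^n = w^n b (z + b)^n`, and `b (z + b)^n` is the image of `orb a z n`; the image of `A` is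
  embedded isometrically (`WithLp.unitization_norm_inr`) and `‖w^n‖ = 1`:
  `‖b (1+wb)^n - l b‖ = ‖z^n (b (1+wb)^n - l b)‖ = ‖b (z+b)^n - l z^n b‖`.
* `QNb b`. The spectrum of `b` in `B` is `{0}`: let `λ ≠ 0` be in the spectrum; there is a character
  `χ : B → ℂ` (continuous algebra homomorphism) with `χ b = λ`
  (`WeakDual.CharacterSpace.mem_spectrum_iff_exists`; `B` is a commutative Banach algebra). The
  continuous linear functional `x ↦ χ (inr x)` on `A` is nonzero, hence surjective, and maps the dense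
  orbit to a dense subset of `ℂ` (`DenseRange`/`Dense.image`): `{λ (z₀+λ)^n : n ≥ 1}` is dense. But the
  sequence of the norms `|λ| |z₀+λ|^n` is monotone in `n`: if `|z₀+λ| ≤ 1` all norms are `≤ |λ|`, not
  dense; if `|z₀+λ| > 1` all norms are `> |λ|`, not dense. The spectrum is nonempty, so the spectral
  radius is `0`, and by Gelfand's formula
  (`spectrum.pow_nnnorm_pow_one_div_tendsto_nhds_spectralRadius`) `‖b^n‖^(1/n) → 0`. So for `r > 0`
  `r^n ‖b^n‖ ≤ 1` for large `n`; finitely many `n` remain.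
-/

set_option autoImplicit false

namespace Pool.Agent.Work.MP_0d53be_an.Full

universe u

variable {A : Type*} [NonUnitalNormedRing A] [NormedSpace ℂ A] [SMulCommClass ℂ A A]
  [IsScalarTower ℂ A A]

private theorem iota_pow {B : Type*} [NormedCommRing B] [NormedAlgebra ℂ B] (ι : A →ₗ[ℂ] B)
    (hm : ∀ x y : A, ι (x * y) = ι x * ι y) (a : A) (z : ℂ) (n : ℕ) (x : A) :
    ι (((z • (1 : A →L[ℂ] A) + mulL a) ^ n) x) = (algebraMap ℂ B z + ι a) ^ n * ι x := by
  induction n with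
  | zero => simp
  | succ n ih =>
    rw [pow_succ', pow_succ', mul_assoc, ← ih]
    change ι (z • ((z • (1 : A →L[ℂ] A) + mulL a) ^ n) x +
      a * ((z • (1 : A →L[ℂ] A) + mulL a) ^ n) x) = _
    rw [map_add, map_smul, hm, add_mul, Algebra.smul_def]

private theorem iota_orb {B : Type*} [NormedCommRing B] [NormedAlgebra ℂ B] (ι : A →ₗ[ℂ] B)
    (hm : ∀ x y : A, ι (x * y) = ι x * ι y) (a : A) (z : ℂ) (n : ℕ) :
    ι (orb a z n) = (algebraMap ℂ B z + ι a) ^ n * ι a := by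
  rw [orb_eq, iota_pow ι hm]

private theorem iota_apow {B : Type*} [NormedCommRing B] [NormedAlgebra ℂ B] (ι : A →ₗ[ℂ] B)
    (hm : ∀ x y : A, ι (x * y) = ι x * ι y) (a : A) (n : ℕ) :
    ι (apow a (n + 1)) = ι a ^ (n + 1) := by
  induction n with
  | zero => rw [zero_add, apow_one, pow_one]
  | succ n ih => rw [apow_mul, hm, ih, ← pow_succ]

private theorem core_norm {B : Type*} [NormedCommRing B] [NormedAlgebra ℂ B] (ι : A →ₗ[ℂ] B)
    (hm : ∀ x y : A, ι (x * y) = ι x * ι y) (hn : ∀ x : A, ‖ι x‖ = ‖x‖) (a : A) :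
    ∀ (z l : ℂ), ‖z‖ = 1 → ∀ n : ℕ,
        ‖ι a * (1 + z⁻¹ • ι a) ^ n - l • ι a‖ = ‖orb a z n - (l * z ^ n) • a‖ := by
  intro z l hz n
  have hz0 : z ≠ 0 := by
    intro h
    rw [h, norm_zero] at hz
    exact zero_ne_one hz
  have e1 : (1 : B) + z⁻¹ • ι a = z⁻¹ • (algebraMap ℂ B z + ι a) := by
    rw [smul_add, Algebra.algebraMap_eq_smul_one, smul_smul, inv_mul_cancel₀ hz0, one_smul]
  have e2 : ι a * (1 + z⁻¹ • ι a) ^ n - l • ι a =
      (z⁻¹ ^ n) • ι (orb a z n - (l * z ^ n) • a) := by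
    rw [e1, map_sub, map_smul, iota_orb ι hm, smul_sub, smul_smul, smul_pow, mul_smul_comm,
      mul_comm (ι a)]
    congr 2
    rw [mul_left_comm, ← mul_pow, inv_mul_cancel₀ hz0, one_pow, mul_one]
  rw [e2, norm_smul, hn, norm_pow, norm_inv, hz, inv_one, one_pow, one_mul]

private theorem core_pow {B : Type*} [NormedCommRing B] [NormedAlgebra ℂ B] (ι : A →ₗ[ℂ] B)
    (hm : ∀ x y : A, ι (x * y) = ι x * ι y) (hn : ∀ x : A, ‖ι x‖ = ‖x‖)
    (hA : ¬ FiniteDimensional ℂ A) (a : A) (z₀ : ℂ)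
    (hd : Dense {x : A | ∃ n : ℕ, 1 ≤ n ∧ x = orb a z₀ n}) (n : ℕ) : ι a ^ n ≠ 0 := by
  have key : ∀ n : ℕ, ι a ^ (n + 1) ≠ 0 := by
    intro n h
    rw [← iota_apow ι hm] at h
    have h1 := hn (apow a (n + 1))
    rw [h, norm_zero] at h1
    exact apow_ne hA hd n (norm_eq_zero.1 h1.symm)
  cases n with
  | zero =>
    intro h
    refine key 0 ?_
    rw [zero_add, pow_one, ← mul_one (ι a), ← pow_zero (ι a), h, mul_zero]
  | succ n => exact key n

private theorem core_char {B : Type*} [NormedCommRing B] [NormedAlgebra ℂ B] [CompleteSpace B]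
    (ι : A →ₗ[ℂ] B) (hm : ∀ x y : A, ι (x * y) = ι x * ι y) (hn : ∀ x : A, ‖ι x‖ = ‖x‖)
    (a : A) (z₀ : ℂ) (hd : Dense {x : A | ∃ n : ℕ, 1 ≤ n ∧ x = orb a z₀ n})
    (χ : WeakDual.characterSpace ℂ B) : χ (ι a) = 0 := by
  by_contra hne
  set c : ℂ := χ (ι a) with hc
  have hcont : Continuous fun x : A => χ (ι x) := by
    have h1 : Continuous ι := by
      have : Isometry ι := AddMonoidHomClass.isometry_of_norm ι hn
      exact this.continuous
    exact (map_continuous χ).comp h1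
  have hsurj : Function.Surjective fun x : A => χ (ι x) := by
    intro w
    refine ⟨(w / c) • a, ?_⟩
    simp only [map_smul, smul_eq_mul]
    rw [← hc, div_mul_cancel₀ _ hne]
  have hdim : Dense ((fun x : A => χ (ι x)) '' {x : A | ∃ n : ℕ, 1 ≤ n ∧ x = orb a z₀ n}) :=
    hsurj.denseRange.dense_image hcont hd
  have hval : ∀ n : ℕ, χ (ι (orb a z₀ n)) = (z₀ + c) ^ n * c := by
    intro n
    rw [iota_orb ι hm, map_mul, map_pow, map_add, ← hc]
    congr 3
    rw [Algebra.algebraMap_eq_smul_one, map_smul, map_one, smul_eq_mul, mul_one]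
  rcases le_or_gt ‖z₀ + c‖ 1 with h | h
  · have hsub : ((fun x : A => χ (ι x)) '' {x : A | ∃ n : ℕ, 1 ≤ n ∧ x = orb a z₀ n}) ⊆
        Metric.closedBall (0 : ℂ) ‖c‖ := by
      rintro _ ⟨x, ⟨n, -, rfl⟩, rfl⟩
      rw [mem_closedBall_zero_iff]
      change ‖χ (ι (orb a z₀ n))‖ ≤ _
      rw [hval, norm_mul, norm_pow]
      exact mul_le_of_le_one_left (norm_nonneg _) (pow_le_one₀ (norm_nonneg _) h)
    have hu := (hdim.mono hsub).closure_eq
    rw [Metric.isClosed_closedBall.closure_eq] at hu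
    have h3 : (2 * c) ∈ Metric.closedBall (0 : ℂ) ‖c‖ := by rw [hu]; trivial
    rw [mem_closedBall_zero_iff, norm_mul] at h3
    have h4 : 0 < ‖c‖ := norm_pos_iff.2 hne
    have h5 : ‖(2 : ℂ)‖ = 2 := by norm_num
    rw [h5] at h3
    linarith
  · have hsub : ((fun x : A => χ (ι x)) '' {x : A | ∃ n : ℕ, 1 ≤ n ∧ x = orb a z₀ n}) ⊆
        {w : ℂ | ‖c‖ ≤ ‖w‖} := by
      rintro _ ⟨x, ⟨n, -, rfl⟩, rfl⟩
      change ‖c‖ ≤ ‖χ (ι (orb a z₀ n))‖
      rw [hval, norm_mul, norm_pow]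
      exact le_mul_of_one_le_left (norm_nonneg _) (one_le_pow₀ h.le)
    have hcl : IsClosed {w : ℂ | ‖c‖ ≤ ‖w‖} := isClosed_le continuous_const continuous_norm
    have hu := (hdim.mono hsub).closure_eq
    rw [hcl.closure_eq] at hu
    have h3 : (0 : ℂ) ∈ {w : ℂ | ‖c‖ ≤ ‖w‖} := by rw [hu]; trivial
    have h4 : ‖c‖ ≤ ‖(0 : ℂ)‖ := h3
    rw [norm_zero] at h4
    exact hne (norm_eq_zero.1 (le_antisymm h4 (norm_nonneg _)))

private theorem core_qn {B : Type*} [NormedCommRing B] [NormedAlgebra ℂ B] [CompleteSpace B]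
    (ι : A →ₗ[ℂ] B) (hm : ∀ x y : A, ι (x * y) = ι x * ι y) (hn : ∀ x : A, ‖ι x‖ = ‖x‖)
    (_hA : ¬ FiniteDimensional ℂ A) (a : A) (z₀ : ℂ)
    (hd : Dense {x : A | ∃ n : ℕ, 1 ≤ n ∧ x = orb a z₀ n}) : QNb (ι a) := by
  have h0 : spectralRadius ℂ (ι a) = 0 := by
    refine le_antisymm (iSup₂_le fun k hk => ?_) bot_le
    rw [WeakDual.CharacterSpace.mem_spectrum_iff_exists] at hk
    obtain ⟨χ, hχ⟩ := hk
    rw [core_char ι hm hn a z₀ hd χ] at hχ
    rw [← hχ]
    simp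
  have hlim := spectrum.pow_norm_pow_one_div_tendsto_nhds_spectralRadius (ι a)
  rw [h0] at hlim
  intro r hr
  have hev := (ENNReal.tendsto_nhds_zero.1 hlim) (ENNReal.ofReal (1 / r))
    (ENNReal.ofReal_pos.2 (by positivity))
  obtain ⟨N, hN⟩ := Filter.eventually_atTop.1 hev
  have hb : ∀ n : ℕ, N + 1 ≤ n → r ^ n * ‖ι a ^ n‖ ≤ 1 := by
    intro n hn
    have h1 := hN n (by omega)
    rw [ENNReal.ofReal_le_ofReal_iff (by positivity)] at h1
    have hn0 : (n : ℝ) ≠ 0 := by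
      have : n ≠ 0 := by omega
      exact_mod_cast this
    have h2 : ‖ι a ^ n‖ = (‖ι a ^ n‖ ^ (1 / (n : ℝ))) ^ n := by
      rw [← Real.rpow_natCast, ← Real.rpow_mul (norm_nonneg _), one_div_mul_cancel hn0,
        Real.rpow_one]
    rw [h2]
    calc r ^ n * (‖ι a ^ n‖ ^ (1 / (n : ℝ))) ^ n ≤ r ^ n * (1 / r) ^ n := by
          refine mul_le_mul_of_nonneg_left ?_ (by positivity)
          exact pow_le_pow_left₀ (Real.rpow_nonneg (norm_nonneg _) _) h1 n
      _ = 1 := by rw [← mul_pow, mul_one_div_cancel hr.ne', one_pow]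
  refine ⟨1 + ∑ j ∈ Finset.range (N + 1), r ^ j * ‖ι a ^ j‖, fun j => ?_⟩
  have hnn : ∀ j ∈ Finset.range (N + 1), 0 ≤ r ^ j * ‖ι a ^ j‖ := fun j _ => by positivity
  rcases Nat.lt_or_ge j (N + 1) with hj | hj
  · have := Finset.single_le_sum hnn (Finset.mem_range.2 hj)
    linarith
  · have h1 := hb j hj
    have h2 := Finset.sum_nonneg hnn
    linarith

theorem transfer {A : Type u} [NonUnitalNormedRing A] [NormedSpace ℂ A] [SMulCommClass ℂ A A]
    [IsScalarTower ℂ A A] [CompleteSpace A] (hA : ¬ FiniteDimensional ℂ A) {a : A} {z₀ : ℂ}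
    (hd : Dense {x : A | ∃ n : ℕ, 1 ≤ n ∧ x = orb a z₀ n}) :
    ∃ (B : Type u) (_ : NormedCommRing B) (_ : NormedAlgebra ℂ B) (_ : CompleteSpace B) (b : B),
      QNb b ∧ (∀ n : ℕ, b ^ n ≠ 0) ∧ ∀ (z l : ℂ), ‖z‖ = 1 → ∀ n : ℕ,
        ‖b * (1 + z⁻¹ • b) ^ n - l • b‖ = ‖orb a z n - (l * z ^ n) • a‖ := by
  have hcomm := comm_of_dense hd
  let R : NormedCommRing (WithLp 1 (Unitization ℂ A)) :=
    { WithLp.instUnitizationNormedRing with
      mul_comm := fun x y => by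
        apply WithLp.ofLp_injective
        change WithLp.ofLp x * WithLp.ofLp y = WithLp.ofLp y * WithLp.ofLp x
        refine Unitization.ext ?_ ?_
        · rw [Unitization.fst_mul, Unitization.fst_mul, mul_comm]
        · rw [Unitization.snd_mul, Unitization.snd_mul, hcomm (WithLp.ofLp x).snd]
          abel }
  let ι : A →ₗ[ℂ] WithLp 1 (Unitization ℂ A) :=
    (WithLp.linearEquiv 1 ℂ (Unitization ℂ A)).symm.toLinearMap.comp
      (Unitization.inrHom ℂ ℂ A)
  have hm : ∀ x y : A, ι (x * y) = ι x * ι y := by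
    intro x y
    apply WithLp.ofLp_injective
    change ((x * y : A) : Unitization ℂ A) = (x : Unitization ℂ A) * (y : Unitization ℂ A)
    exact Unitization.inr_mul ℂ x y
  have hn : ∀ x : A, ‖ι x‖ = ‖x‖ := fun x => WithLp.unitization_norm_inr x
  exact ⟨WithLp 1 (Unitization ℂ A), R, WithLp.instUnitizationNormedAlgebra,
    WithLp.instCompleteSpace ℂ A, ι a,
    @core_qn A _ _ _ _ (WithLp 1 (Unitization ℂ A)) R WithLp.instUnitizationNormedAlgebra
      (WithLp.instCompleteSpace ℂ A) ι hm hn hA a z₀ hd,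
    @core_pow A _ _ _ _ (WithLp 1 (Unitization ℂ A)) R WithLp.instUnitizationNormedAlgebra
      ι hm hn hA a z₀ hd,
    @core_norm A _ _ _ _ (WithLp 1 (Unitization ℂ A)) R WithLp.instUnitizationNormedAlgebra
      ι hm hn a⟩

end Pool.Agent.Work.MP_0d53be_an.Full
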