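import Pool.Agent.Work.MP_0d53be_an.Full.Z.Main

/-!
# Z/Core: almost every angle has finitely many near returns

Let `ε`, `k₀` be as in `main_prop`, `U_k = (⋃_{2^(k-1) < n ≤ 2^k} Vn b ε n) ∩ (0, 2π]`. Since
`∑ 1/k²` converges, `∑ μ(U_k) < ∞` (finite measures for `k < k₀`), so by the Borel-Cantelli lemma
(`measure_limsup_atTop_eq_zero`) almost every `θ` lies in `U_k` for finitely many `k` only. If
`θ ∈ (0, 2π]` lies in `Vn b ε n` for infinitely many `n ≥ 2`, then, as every `n ≥ 2` lies in exactly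
one `(2^(k-1), 2^k]` (`k ≥ 1`) and every such block is finite, `θ ∈ U_k` for infinitely many `k`.
So the set of the `θ ∈ (0, 2π]` with infinitely many near returns is a null set. By `Vn_periodic` the
whole set `Z ⊆ ℝ` is `2π`-periodic and is the union of the translates of its part in `(0, 2π]`: null.
-/

set_option autoImplicit false

namespace Pool.Agent.Work.MP_0d53be_an.Full

open MeasureTheory Filter

variable {B : Type*} [NormedCommRing B] [NormedAlgebra ℂ B] [CompleteSpace B]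

private theorem Vn_zsmul (b : B) (ε : ℝ) (n : ℕ) (j : ℤ) (θ : ℝ) :
    θ + j • (2 * Real.pi) ∈ Vn b ε n ↔ θ ∈ Vn b ε n := by
  induction j using Int.induction_on with
  | zero => simp
  | succ j ih =>
    rw [← ih, add_smul, one_smul, ← add_assoc]
    exact Vn_periodic b ε n _
  | pred j ih =>
    rw [← ih, sub_smul, one_smul, ← Vn_periodic b ε n]
    rw [show θ + (-(j : ℤ) • (2 * Real.pi) - 2 * Real.pi) + 2 * Real.pi =
      θ + -(j : ℤ) • (2 * Real.pi) by ring]

theorem core_ae {b : B} (h : QNb b) (hb : ∀ n : ℕ, b ^ n ≠ 0) :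
    ∃ ε : ℝ, 0 < ε ∧ ∀ᵐ θ : ℝ, ∀ᶠ n : ℕ in atTop, θ ∉ Vn b ε n := by
  obtain ⟨ε, hε, k₀, hk⟩ := main_prop h hb
  refine ⟨ε, hε, ?_⟩
  set U : ℕ → Set ℝ := fun k => (⋃ n ∈ Finset.Ioc (2 ^ (k - 1)) (2 ^ k), Vn b ε n) ∩
        Set.Ioc 0 (2 * Real.pi) with hU
  have hfin : ∀ k, volume (U k) ≠ ⊤ := fun k => by
    refine ne_top_of_le_ne_top ?_ (measure_mono Set.inter_subset_right)
    rw [Real.volume_Ioc]
    exact ENNReal.ofReal_ne_top
  have hsum : Summable fun k => volume.real (U k) := by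
    rw [← summable_nat_add_iff k₀]
    refine Summable.of_nonneg_of_le (fun _ => measureReal_nonneg)
      (fun k => (hk (k + k₀) (Nat.le_add_left _ _)).le) ?_
    exact (summable_nat_add_iff k₀).2 (Real.summable_one_div_nat_pow.2 (by norm_num))
  have htsum : ∑' k, volume (U k) ≠ ⊤ := by
    have h1 := hsum.tsum_ofReal_ne_top
    have h2 : ∀ k, ENNReal.ofReal (volume.real (U k)) = volume (U k) := fun k =>
      ENNReal.ofReal_toReal (hfin k)
    simpa only [h2] using h1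
  have h3 := ae_eventually_notMem htsum
  have h4 : ∀ᵐ θ : ℝ, θ ∈ Set.Ioc 0 (2 * Real.pi) → ∀ᶠ n : ℕ in atTop, θ ∉ Vn b ε n := by
    filter_upwards [h3] with θ hθ hθ0
    obtain ⟨k₁, hk₁⟩ := eventually_atTop.1 hθ
    refine eventually_atTop.2 ⟨2 ^ k₁ + 2, fun n hn hmem => ?_⟩
    have hn2 : 1 < n := by
      have : 0 < 2 ^ k₁ := by positivity
      omega
    have h5 : k₁ ≤ Nat.clog 2 n := by
      by_contra hcon
      push Not at hcon
      have h6 := Nat.le_pow_clog (b := 2) (by norm_num) n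
      have h7 : 2 ^ Nat.clog 2 n ≤ 2 ^ k₁ := Nat.pow_le_pow_right (by norm_num) hcon.le
      omega
    refine hk₁ _ h5 ⟨?_, hθ0⟩
    refine Set.mem_iUnion₂.2 ⟨n, ?_, hmem⟩
    rw [Finset.mem_Ioc]
    exact ⟨Nat.pow_pred_clog_lt_self (by norm_num) hn2, Nat.le_pow_clog (by norm_num) n⟩
  have h8 : ∀ᵐ θ : ℝ, ∀ j : ℤ, θ + j • (2 * Real.pi) ∈ Set.Ioc 0 (2 * Real.pi) →
      ∀ᶠ n : ℕ in atTop, θ + j • (2 * Real.pi) ∉ Vn b ε n := by
    rw [ae_all_iff]
    intro j
    exact (measurePreserving_add_right volume (j • (2 * Real.pi))).quasiMeasurePreserving.ae h4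
  filter_upwards [h8] with θ hθ
  obtain ⟨j, hj, -⟩ := existsUnique_add_zsmul_mem_Ioc Real.two_pi_pos θ 0
  rw [zero_add] at hj
  filter_upwards [hθ j hj] with n hn
  rwa [Vn_zsmul] at hn

end Pool.Agent.Work.MP_0d53be_an.Full
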