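import Pool.Agent.Work.MP_0d53be_an.Full.Z.AlgB
import Pool.Agent.Work.MP_0d53be_an.Full.Z.Core

/-!
# Z/AlgC: the theorem

`A` complex Banach algebra (maybe without unit) of infinite dimension, `a : A`. For almost every real
`θ` the set `{a (e^{iθ} + a)^n : n ≥ 1}` is not dense in `A`.

Proof. If it is not dense for every `θ`, there is nothing to prove. Otherwise `transfer` gives `B`,
`b`, and `core_ae` gives `ε > 0` and a null set outside of which `θ ∈ Vn b ε n` for finitely many `n` only.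
Let the orbit be dense for the angle `θ`, `z = e^{iθ}`. `A` is a nontrivial normed space over `ℂ`
(infinite dimensional), so a dense set minus finitely many points is dense
(`Dense.sdiff_finite`; `A` has no isolated points), and every ball around `a` contains points
`orb a z n` for infinitely many `n`. For such `n` with `‖orb a z n - a‖ < ε` let `l = z^(-n)`, `‖l‖ = 1`:
`‖b (1 + z⁻¹ b)^n - l b‖ = ‖orb a z n - a‖ < ε`, and `z⁻¹ = e^{i(-θ)}`, so `-θ ∈ Vn b ε n` for infinitely
many `n`. So `-θ` is in the null set. The reflection of a null set is a null set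
(`Measure.IsNegInvariant volume`, e.g. `(Measure.measurePreserving_neg volume).quasiMeasurePreserving.ae`).
-/

set_option autoImplicit false

namespace Pool.Agent.Work.MP_0d53be_an.Full

open MeasureTheory

theorem ae_not_dense {A : Type*} [NonUnitalNormedRing A] [NormedSpace ℂ A] [SMulCommClass ℂ A A]
    [IsScalarTower ℂ A A] [CompleteSpace A] (hA : ¬ FiniteDimensional ℂ A) (a : A) :
    ∀ᵐ θ : ℝ, ¬ Dense {x : A | ∃ n : ℕ, 1 ≤ n ∧ x = orb a (Complex.exp (θ * Complex.I)) n} := by
  by_cases h : ∃ θ : ℝ,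
      Dense {x : A | ∃ n : ℕ, 1 ≤ n ∧ x = orb a (Complex.exp (θ * Complex.I)) n}
  swap
  · exact Filter.Eventually.of_forall fun θ hθ => h ⟨θ, hθ⟩
  obtain ⟨θ₀, hd⟩ := h
  obtain ⟨B, i1, i2, i3, b, hQ, hb, hB⟩ := transfer hA hd
  obtain ⟨ε, hε, hae⟩ := core_ae hQ hb
  have hae' : ∀ᵐ θ : ℝ, ∀ᶠ n : ℕ in Filter.atTop, -θ ∉ Vn b ε n :=
    (Measure.measurePreserving_neg (volume : Measure ℝ)).quasiMeasurePreserving.ae hae
  filter_upwards [hae'] with θ hθ hdense
  obtain ⟨N, hN⟩ := Filter.eventually_atTop.1 hθ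
  have hnt : Nontrivial A := by
    by_contra h0
    rw [not_nontrivial_iff_subsingleton] at h0
    exact hA inferInstance
  have hnb : ∀ x : A, Filter.NeBot (nhdsWithin x {x}ᶜ) := fun x =>
    Module.punctured_nhds_neBot ℂ A x
  set z : ℂ := Complex.exp (θ * Complex.I) with hz
  have hz1 : ‖z‖ = 1 := by
    rw [hz]
    exact Complex.norm_exp_ofReal_mul_I θ
  have hz0 : z ≠ 0 := by
    intro h0
    rw [h0, norm_zero] at hz1
    exact zero_ne_one hz1
  have hfin : (Set.range fun m : Fin N => orb a z (m : ℕ)).Finite := Set.finite_range _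
  obtain ⟨x, ⟨⟨n, hn1, rfl⟩, hx2⟩, hx3⟩ := (hdense.sdiff_finite hfin).exists_dist_lt a hε
  have hnN : N ≤ n := by
    by_contra hlt
    exact hx2 ⟨⟨n, by omega⟩, rfl⟩
  apply hN n hnN
  refine ⟨(z ^ n)⁻¹, ?_, ?_⟩
  · rw [norm_inv, norm_pow, hz1, one_pow, inv_one]
  · have h1 : Complex.exp (((-θ : ℝ) : ℂ) * Complex.I) = z⁻¹ := by
      rw [hz, ← Complex.exp_neg]
      congr 1
      push_cast
      ring
    rw [h1, hB z _ hz1 n, inv_mul_cancel₀ (pow_ne_zero n hz0), one_smul]
    rw [dist_comm, dist_eq_norm] at hx3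
    exact hx3

end Pool.Agent.Work.MP_0d53be_an.Full
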