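import Pool.Agent.Work.MP_0d53be_an.Full.P.PA
import Pool.Agent.Work.MP_0d53be_an.Full.X.Near

/-!
# Z/PlaneX: a fan of near returns is not dense in the plane

For every `M` there is `ε̄ > 0` such that for every `K₁ ≥ 1` there is `k₀` with: for `k ≥ k₀`, every
`θ`, every finite `S ⊆ G` with `NR b M ε̄ (Ew θ (toC z/K₁))` for `z ∈ S`, every `q` and every
`x ∈ [2^(√k), 2^(2k)]`, `S` is not `PlaneDense` at `q`, scale `x`, `J = k^11`.

Proof. `ε̄ = ‖b^(M+1)‖/(2(‖b‖ + 1))`, so `NR_low` gives `c ≤ ‖exp(ev b y) b^(M+1)‖`,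
`‖exp(ev b y) b^M‖ ≤ C` for the near returns `y`, with `c = ‖b^(M+1)‖/2 > 0`, `C = ‖b^M‖ + ε̄`.
`no_plane` with `p = M` gives `ρ₀`. Suppose `PlaneDense S q x (k^11)`. Let `ρ = 6x/K₁`,
`n = ⌈(log (200ρ))²⌉`; `log (200ρ) ≤ log 1200 + 2k log 2 ≤ 2k`, so `n ≤ 4k² + 1 ≤ 5k²`; `ρ ≥ ρ₀` for
large `k` (`x ≥ 2^(Nat.sqrt k)`). For `i ≤ n` let
`Q i = {Ew θ (toC z/K₁) : z ∈ S, ‖toC z - q‖ ≤ 6x + 1206 i x}`. `Q 0` is nonempty (`ζ = 0` in
`PlaneDense`). Let `i < n`, `z` as in `Q i`, `‖ζ‖ ≤ 200ρ`. Put `ζ₁ = e^{-iθ} K₁ ζ`,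
`‖ζ₁‖ ≤ 1200 x`. The point `toC z + ζ₁ - q` has norm at most `6x + 1206 i x + 1200 x ≤ k^11 x`, so
there is `z' ∈ S` with `‖toC z' - (toC z + ζ₁)‖ ≤ 6x`; then `‖toC z' - q‖ ≤ 6x + 1206 (i+1) x`. The
difference `y = Ew θ (toC z'/K₁) - Ew θ (toC z/K₁) = Ew θ (ξ)`, `ξ = (toC z' - toC z)/K₁`
(`Ew_sub`), has `2 y_0 = e^{iθ} ξ` (`Ew_zero_coord`), `‖2y_0 - ζ‖ = ‖ξ - e^{-iθ} ζ‖ ≤ 6x/K₁ = ρ`, and
`‖y‖ ≤ ‖ξ‖ ≤ 201 ρ ≤ 500ρ` (`Ew_norm`). `no_plane` gives the contradiction.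
-/

set_option autoImplicit false

namespace Pool.Agent.Work.MP_0d53be_an.Full

variable {B : Type*} [NormedCommRing B] [NormedAlgebra ℂ B] [CompleteSpace B]

theorem plane_excl {b : B} (h : QNb b) (hb : ∀ n : ℕ, b ^ n ≠ 0) (M : ℕ) :
    ∃ εb : ℝ, 0 < εb ∧ ∀ K₁ : ℕ, 1 ≤ K₁ → ∃ k₀ : ℕ, ∀ k : ℕ, k₀ ≤ k → ∀ (θ : ℝ) (S : Finset G),
      (∀ z ∈ S, NR b M εb (Ew θ (toC z / K₁))) → ∀ (q : ℂ) (x : ℝ), 2 ^ (Nat.sqrt k) ≤ x →
      x ≤ 2 ^ (2 * k) → ¬ PlaneDense S q x ((k : ℝ) ^ 11) := by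
  have hB : 0 < ‖b ^ (M + 1)‖ := norm_pos_iff.2 (hb (M + 1))
  have hb1 : 0 < ‖b‖ + 1 := by positivity
  set εb : ℝ := ‖b ^ (M + 1)‖ / (2 * (‖b‖ + 1)) with hεb
  have hε0 : 0 < εb := by positivity
  have hε1 : 2 * (εb * ‖b‖) ≤ ‖b ^ (M + 1)‖ := by
    have h1 : 2 * (εb * (‖b‖ + 1)) = ‖b ^ (M + 1)‖ := by
      rw [hεb]
      field_simp
    nlinarith
  refine ⟨εb, hε0, fun K₁ hK₁ => ?_⟩
  obtain ⟨ρ₀, hρ₀⟩ := no_plane h M (c := ‖b ^ (M + 1)‖ / 2) (C := ‖b ^ M‖ + εb) (by positivity)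
  have hK : (1 : ℝ) ≤ K₁ := by exact_mod_cast hK₁
  have hK0 : (0 : ℝ) < K₁ := by linarith
  have hKc : (K₁ : ℂ) ≠ 0 := by
    have h1 : K₁ ≠ 0 := by omega
    exact_mod_cast h1
  obtain ⟨m, hm⟩ := pow_unbounded_of_one_lt (max ρ₀ 1 * K₁) (one_lt_two : (1 : ℝ) < 2)
  refine ⟨max 11 (m * m), fun k hk θ S hS q x hx1 hx2 hPD => ?_⟩
  have hk11 : 11 ≤ k := (le_max_left _ _).trans hk
  have hkm : m ≤ Nat.sqrt k := Nat.le_sqrt.2 ((le_max_right _ _).trans hk)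
  have hkr : (11 : ℝ) ≤ k := by exact_mod_cast hk11
  have hx0 : 0 < x := lt_of_lt_of_le (by positivity) hx1
  have hxm : max ρ₀ 1 * K₁ ≤ x := by
    refine hm.le.trans (le_trans ?_ hx1)
    exact pow_le_pow_right₀ one_le_two hkm
  set ρ : ℝ := 6 * x / K₁ with hρ
  have hρK : ρ * K₁ = 6 * x := by
    rw [hρ]
    field_simp
  have hρm : max ρ₀ 1 ≤ ρ := by
    rw [hρ, le_div_iff₀ hK0]
    linarith
  have hρ1 : 1 ≤ ρ := (le_max_right _ _).trans hρm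
  have hρ0 : 0 < ρ := by linarith
  set L : ℝ := Real.log (200 * ρ) with hL
  have hL0 : 0 ≤ L := Real.log_nonneg (by linarith)
  have hL1 : L ≤ 3 * k := by
    have h1 : 200 * ρ ≤ 2 ^ (2 * k + 11) := by
      have h2 : ρ ≤ 6 * x := by
        rw [← hρK]
        nlinarith
      have h3 : (2 : ℝ) ^ (2 * k + 11) = 2 ^ (2 * k) * 2048 := by
        rw [pow_add]
        norm_num
      rw [h3]
      nlinarith
    have h2 : L ≤ ((2 * k + 11 : ℕ) : ℝ) * Real.log 2 := by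
      rw [← Real.log_pow]
      exact Real.log_le_log (by linarith) h1
    have h3 : Real.log 2 ≤ 1 := by
      have := Real.log_two_lt_d9
      linarith
    have h4 : (0 : ℝ) ≤ ((2 * k + 11 : ℕ) : ℝ) := Nat.cast_nonneg _
    have h5 : ((2 * k + 11 : ℕ) : ℝ) * Real.log 2 ≤ ((2 * k + 11 : ℕ) : ℝ) * 1 :=
      mul_le_mul_of_nonneg_left h3 h4
    push_cast at h2 h5
    linarith
  set n : ℕ := ⌈L ^ 2⌉₊ with hn
  have hn1 : L ^ 2 ≤ n := Nat.le_ceil _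
  have hn2 : (n : ℝ) ≤ 10 * (k : ℝ) ^ 2 := by
    have h1 : (n : ℝ) < L ^ 2 + 1 := Nat.ceil_lt_add_one (by positivity)
    nlinarith
  have hk11' : 1206 + 12060 * (k : ℝ) ^ 2 ≤ (k : ℝ) ^ 11 := by
    have h1 : (11 : ℝ) ^ 9 ≤ (k : ℝ) ^ 9 := pow_le_pow_left₀ (by norm_num) hkr 9
    have h2 : (k : ℝ) ^ 11 = (k : ℝ) ^ 9 * (k : ℝ) ^ 2 := by rw [← pow_add]
    rw [h2]
    have h3 : (0 : ℝ) < (k : ℝ) ^ 2 := by positivity
    have h4 : (11 : ℝ) ^ 9 * (k : ℝ) ^ 2 ≤ (k : ℝ) ^ 9 * (k : ℝ) ^ 2 :=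
      mul_le_mul_of_nonneg_right h1 h3.le
    nlinarith
  have hkx : (1206 + 12060 * (k : ℝ) ^ 2) * x ≤ (k : ℝ) ^ 11 * x :=
    mul_le_mul_of_nonneg_right hk11' hx0.le
  have hex : Complex.exp (θ * Complex.I) * Complex.exp (-(θ * Complex.I)) = 1 := by
    rw [← Complex.exp_add, add_neg_cancel, Complex.exp_zero]
  have hn1' : ‖Complex.exp (θ * Complex.I)‖ = 1 := Complex.norm_exp_ofReal_mul_I θ
  have hn2' : ‖Complex.exp (-(θ * Complex.I))‖ = 1 := by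
    have h1 := congrArg norm hex
    rw [norm_mul, hn1', one_mul, norm_one] at h1
    exact h1
  refine hρ₀ ρ ((le_max_left _ _).trans hρm) n hn1
    (fun i => {y | ∃ z ∈ S, ‖toC z - q‖ ≤ 6 * x + 1206 * i * x ∧ y = Ew θ (toC z / K₁)}) ?_ ?_ ?_
  · obtain ⟨z, hz, hz2⟩ := hPD 0 (by
      rw [norm_zero]
      positivity)
    refine ⟨Ew θ (toC z / K₁), z, hz, ?_, rfl⟩
    rw [add_zero] at hz2
    push_cast
    linarith
  · rintro i - y ⟨z, hz, -, rfl⟩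
    obtain ⟨h1, h2⟩ := NR_low (hS z hz) hε1
    exact ⟨h2, h1⟩
  · rintro i hi y ⟨z, hz, hz2, rfl⟩ ζ hζ
    have hin : (i : ℝ) ≤ n := by exact_mod_cast hi.le
    set ζ₁ : ℂ := Complex.exp (-(θ * Complex.I)) * (K₁ * ζ) with hζ₁
    have hζ₁n : ‖ζ₁‖ ≤ 1200 * x := by
      rw [hζ₁, norm_mul, hn2', one_mul, norm_mul, Complex.norm_natCast]
      have h1 : (K₁ : ℝ) * ‖ζ‖ ≤ K₁ * (200 * ρ) := mul_le_mul_of_nonneg_left hζ hK0.le
      linarith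
    have h6 : ‖toC z + ζ₁ - q‖ ≤ 6 * x + 1206 * i * x + 1200 * x := by
      have h1 : toC z + ζ₁ - q = (toC z - q) + ζ₁ := by ring
      rw [h1]
      exact (norm_add_le _ _).trans (add_le_add hz2 hζ₁n)
    have h7 : 6 * x + 1206 * i * x + 1200 * x ≤ (k : ℝ) ^ 11 * x := by
      refine le_trans ?_ hkx
      have h1 : (i : ℝ) * x ≤ 10 * (k : ℝ) ^ 2 * x :=
        mul_le_mul_of_nonneg_right (hin.trans hn2) hx0.le
      nlinarith
    obtain ⟨z', hz', hz2'⟩ := hPD (toC z + ζ₁ - q) (h6.trans h7)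
    have h8 : ‖toC z' - toC z - ζ₁‖ ≤ 6 * x := by
      have h1 : toC z' - toC z - ζ₁ = toC z' - (q + (toC z + ζ₁ - q)) := by ring
      rw [h1]
      exact hz2'
    refine ⟨Ew θ (toC z' / K₁), ⟨z', hz', ?_, rfl⟩, ?_⟩
    · have h1 : toC z' - q = (toC z' - toC z - ζ₁) + (toC z + ζ₁ - q) := by ring
      rw [h1]
      refine (norm_add_le _ _).trans ((add_le_add h8 h6).trans (le_of_eq ?_))
      push_cast
      ring
    · rw [← Ew_sub, Ew_zero_coord]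
      have h1 : Complex.exp (θ * Complex.I) * (toC z' / K₁ - toC z / K₁) - ζ =
          Complex.exp (θ * Complex.I) * ((toC z' - toC z - ζ₁) / K₁) := by
        have h2 : Complex.exp (θ * Complex.I) * (ζ₁ / K₁) = ζ := by
          have h3 : Complex.exp (θ * Complex.I) * (ζ₁ / K₁) =
              (Complex.exp (θ * Complex.I) * Complex.exp (-(θ * Complex.I))) * ζ := by
            rw [hζ₁]
            field_simp
          rw [h3, hex, one_mul]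
        calc Complex.exp (θ * Complex.I) * (toC z' / K₁ - toC z / K₁) - ζ =
            Complex.exp (θ * Complex.I) * (toC z' / K₁ - toC z / K₁) -
              Complex.exp (θ * Complex.I) * (ζ₁ / K₁) := by rw [h2]
          _ = _ := by ring
      have h4 : ‖Complex.exp (θ * Complex.I) * (toC z' / K₁ - toC z / K₁) - ζ‖ ≤ ρ := by
        rw [h1, norm_mul, hn1', one_mul, norm_div, Complex.norm_natCast, hρ]
        exact div_le_div_of_nonneg_right h8 hK0.le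
      refine ⟨h4, (Ew_norm θ _).trans ?_⟩
      have h5 : ‖toC z' / K₁ - toC z / K₁‖ =
          ‖Complex.exp (θ * Complex.I) * (toC z' / K₁ - toC z / K₁)‖ := by
        rw [norm_mul, hn1', one_mul]
      have h6 : Complex.exp (θ * Complex.I) * (toC z' / K₁ - toC z / K₁) =
          (Complex.exp (θ * Complex.I) * (toC z' / K₁ - toC z / K₁) - ζ) + ζ := by ring
      rw [h5, h6]
      refine (norm_add_le _ _).trans ?_
      linarith

end Pool.Agent.Work.MP_0d53be_an.Full
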