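import Pool.Agent.Work.MP_0d53be_an.Full.P.PA
import Pool.Agent.Work.MP_0d53be_an.Full.X.Near

/-!
# Z/RadX: two fans with different directions do not both contain long horizontal lines

For every `M` there is `ε̄ > 0` such that for every `K₁ ≥ 1` there is `k₀` with: for `k ≥ k₀`,
`θ, θ'` with `k^(-7) ≤ |θ - θ'| ≤ 1`, finite `S, S' ⊆ G` with
`NR b M ε̄ (Ew θ (toC z/K₁) + Ew θ' (toC z'/K₁))` for `z ∈ S`, `z' ∈ S'`, and
`g ∈ [2^(√k), 2^(3k)]`: not both `LineDense S q 1 g (k^10 g)` and `LineDense S' q' 1 g (k^10 g)`.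

Proof. `ε̄`, `c`, `C` as in Z/PlaneX; `no_plane` with `p = M` gives `ρ₀`. Let `ρ = 4g/K₁`,
`n = ⌈(log (200ρ))²⌉ ≤ 10k²` (`log (200ρ) ≤ 3k` for large `k`). `w = e^{iθ}`, `w' = e^{iθ'}`, `Δ = θ' - θ`, `|sin Δ| ≥ |Δ|/2`
(`|Δ| ≤ 1`). For `ζ : ℂ` let `r' = Im(ζ w̄)/sin Δ`, `r = -Im(ζ w̄')/sin Δ` (real). Then
`r w + r' w' = ζ` (check: multiply by `w̄` and `w̄'` and take imaginary parts:
`Im(r' w' w̄) = r' sin Δ`, `Im(r w w̄') = -r sin Δ`; `w, w'` are a real basis as `sin Δ ≠ 0`), and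
`|r|, |r'| ≤ 2‖ζ‖/|Δ| ≤ 2k^7 ‖ζ‖`.
Norm estimate: `‖Ew θ r + Ew θ' r'‖ ≤ 2‖ζ‖` where `ζ = r w + r' w'`: the `j`-th coordinate is
`(-1)^j 2^(-(j+1)) (r w^(j+1) + r' w'^(j+1))/(j+1)`, and
`r w^(j+1) + r' w'^(j+1) = w^j (r w + r' w') + r' w' (w'^j - w^j)`,
`|w'^j - w^j| ≤ j |w' - w| ≤ j |Δ|`, so its norm is at most `‖ζ‖ + (2‖ζ‖/|Δ|) j |Δ| = ‖ζ‖ (1 + 2j)`;
`(1+2j)/(j+1) ≤ 2` and `∑ 2^(-(j+1)) = 1`.
For `i ≤ n` let `Q i` be the set of the `Ew θ (toC z/K₁) + Ew θ' (toC z'/K₁)` with `z ∈ S`,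
`z' ∈ S'` for which there are real `a, a'` with `|a|, |a'| ≤ 1600 i k^7 g`, `‖toC z - (q + a)‖ ≤ g`,
`‖toC z' - (q' + a')‖ ≤ g`. `Q 0` is nonempty (`r = 0` in `LineDense`). Let `i < n`, `z, z', a, a'`
as in `Q i`, `‖ζ‖ ≤ 200ρ`; `K₁ |r|, K₁ |r'| ≤ 2 k^7 * 200 ρ K₁ = 1600 k^7 g`. Since
`1600 (i+1) k^7 g ≤ k^10 g` (`i + 1 ≤ 10k² + 1`), there are `z₁ ∈ S`, `z₁' ∈ S'` with
`‖toC z₁ - (q + a + K₁ r)‖ ≤ g`, `‖toC z₁' - (q' + a' + K₁ r')‖ ≤ g`. The difference of the new and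
the old exponent is `y = Ew θ (r + e) + Ew θ' (r' + e')` with `‖e‖, ‖e'‖ ≤ 2g/K₁`, so
`2y_0 = w (r + e) + w' (r' + e')`, `‖2y_0 - ζ‖ ≤ 4g/K₁ = ρ`, and
`‖y‖ ≤ 2‖ζ‖ + 4g/K₁ ≤ 401 ρ ≤ 500ρ`. `no_plane` gives the contradiction.
-/

set_option autoImplicit false

namespace Pool.Agent.Work.MP_0d53be_an.Full

variable {B : Type*} [NormedCommRing B] [NormedAlgebra ℂ B] [CompleteSpace B]

private theorem rx_exp_pow (θ : ℝ) (j : ℕ) :
    Complex.exp (θ * Complex.I) ^ j = Complex.exp (((j * θ : ℝ) : ℂ) * Complex.I) := by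
  rw [← Complex.exp_nat_mul]
  congr 1
  push_cast
  ring

private theorem rx_exp_sub (α β : ℝ) :
    ‖Complex.exp (α * Complex.I) - Complex.exp (β * Complex.I)‖ ≤ |α - β| := by
  have h1 : Complex.exp (α * Complex.I) - Complex.exp (β * Complex.I) =
      Complex.exp (β * Complex.I) * (Complex.exp (Complex.I * ((α - β : ℝ) : ℂ)) - 1) := by
    rw [mul_sub, mul_one, ← Complex.exp_add]
    congr 2
    push_cast
    ring
  rw [h1, norm_mul, Complex.norm_exp_ofReal_mul_I, one_mul]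
  exact Real.norm_exp_I_mul_ofReal_sub_one_le

private theorem rx_decomp {θ θ' : ℝ} (hs : Real.sin (θ' - θ) ≠ 0) (ζ : ℂ) : ∃ r r' : ℝ,
    (r : ℂ) * Complex.exp (θ * Complex.I) + (r' : ℂ) * Complex.exp (θ' * Complex.I) = ζ ∧
    |r| * |Real.sin (θ' - θ)| ≤ ‖ζ‖ ∧ |r'| * |Real.sin (θ' - θ)| ≤ ‖ζ‖ := by
  have key : ∀ t : ℝ, |ζ.im * Real.cos t - ζ.re * Real.sin t| ≤ ‖ζ‖ := by
    intro t
    apply abs_le_of_sq_le_sq _ (norm_nonneg ζ)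
    rw [Complex.sq_norm, Complex.normSq_apply]
    nlinarith [Real.sin_sq_add_cos_sq t, sq_nonneg (ζ.re * Real.cos t + ζ.im * Real.sin t)]
  refine ⟨-(ζ.im * Real.cos θ' - ζ.re * Real.sin θ') / Real.sin (θ' - θ),
    (ζ.im * Real.cos θ - ζ.re * Real.sin θ) / Real.sin (θ' - θ), ?_, ?_, ?_⟩
  · have hsd := Real.sin_sub θ' θ
    apply Complex.ext
    · rw [Complex.add_re, Complex.re_ofReal_mul, Complex.re_ofReal_mul,
        Complex.exp_ofReal_mul_I_re, Complex.exp_ofReal_mul_I_re]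
      field_simp
      rw [hsd]
      ring
    · rw [Complex.add_im, Complex.im_ofReal_mul, Complex.im_ofReal_mul,
        Complex.exp_ofReal_mul_I_im, Complex.exp_ofReal_mul_I_im]
      field_simp
      rw [hsd]
      ring
  · rw [abs_div, abs_neg, div_mul_cancel₀ _ (abs_ne_zero.2 hs)]
    exact key θ'
  · rw [abs_div, div_mul_cancel₀ _ (abs_ne_zero.2 hs)]
    exact key θ

private theorem rx_norm {θ θ' : ℝ} (r r' : ℝ) {ζ : ℂ}
    (hζ : (r : ℂ) * Complex.exp (θ * Complex.I) + (r' : ℂ) * Complex.exp (θ' * Complex.I) = ζ)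
    (hr' : |r'| * |θ - θ'| ≤ 2 * ‖ζ‖) :
    ‖Ew θ r + Ew θ' r'‖ ≤ 2 * ‖ζ‖ := by
  have hcoord : ∀ j : ℕ, ‖(Ew θ r + Ew θ' r') j‖ ≤ (1 / 2) ^ (j + 1) * (2 * ‖ζ‖) := by
    intro j
    have hj : (0 : ℝ) < (j : ℝ) + 1 := by positivity
    have hjc : ((j : ℂ) + 1) ≠ 0 := by exact_mod_cast Nat.succ_ne_zero j
    have e1 : (Ew θ r + Ew θ' r') j = (-1) ^ j * (1 / 2) ^ (j + 1) / ((j : ℂ) + 1) *
        (Complex.exp (θ * Complex.I) ^ j * ζ + (r' : ℂ) * Complex.exp (θ' * Complex.I) *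
          (Complex.exp (θ' * Complex.I) ^ j - Complex.exp (θ * Complex.I) ^ j)) := by
      have e2 : (Ew θ r + Ew θ' r') j = Ewf θ r j + Ewf θ' r' j := rfl
      rw [e2, ← hζ]
      unfold Ewf
      rw [Complex.ofReal_re, Complex.ofReal_im, Complex.ofReal_re, Complex.ofReal_im]
      push_cast
      rw [div_pow, div_pow, one_div, inv_pow]
      field_simp
      ring
    rw [e1, norm_mul, norm_div, norm_mul, norm_pow, norm_neg, norm_one, one_pow, one_mul, norm_pow,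
      norm_div, norm_one, Complex.norm_ofNat]
    have e3 : ‖(j : ℂ) + 1‖ = (j : ℝ) + 1 := by
      have : ((j : ℂ) + 1) = ((j + 1 : ℕ) : ℂ) := by push_cast; rfl
      rw [this, Complex.norm_natCast]
      push_cast
      rfl
    rw [e3]
    have e4 : ‖Complex.exp (θ' * Complex.I) ^ j - Complex.exp (θ * Complex.I) ^ j‖ ≤
        j * |θ - θ'| := by
      rw [rx_exp_pow, rx_exp_pow]
      refine (rx_exp_sub _ _).trans ?_
      rw [← mul_sub, abs_mul, Nat.abs_cast, abs_sub_comm]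
    have e5 : ‖Complex.exp (θ * Complex.I) ^ j * ζ + (r' : ℂ) * Complex.exp (θ' * Complex.I) *
          (Complex.exp (θ' * Complex.I) ^ j - Complex.exp (θ * Complex.I) ^ j)‖ ≤
        2 * ((j : ℝ) + 1) * ‖ζ‖ := by
      refine (norm_add_le _ _).trans ?_
      rw [norm_mul, norm_pow, Complex.norm_exp_ofReal_mul_I, one_pow, one_mul, norm_mul, norm_mul,
        Complex.norm_exp_ofReal_mul_I, mul_one, Complex.norm_real, Real.norm_eq_abs]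
      have h1 := mul_le_mul_of_nonneg_left e4 (abs_nonneg r')
      have h2 := mul_le_mul_of_nonneg_left hr' (Nat.cast_nonneg j : (0 : ℝ) ≤ j)
      have h3 := norm_nonneg ζ
      nlinarith
    calc (1 / 2 : ℝ) ^ (j + 1) / ((j : ℝ) + 1) *
        ‖Complex.exp (θ * Complex.I) ^ j * ζ + (r' : ℂ) * Complex.exp (θ' * Complex.I) *
          (Complex.exp (θ' * Complex.I) ^ j - Complex.exp (θ * Complex.I) ^ j)‖
        ≤ (1 / 2 : ℝ) ^ (j + 1) / ((j : ℝ) + 1) * (2 * ((j : ℝ) + 1) * ‖ζ‖) :=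
          mul_le_mul_of_nonneg_left e5 (by positivity)
      _ = (1 / 2) ^ (j + 1) * (2 * ‖ζ‖) := by field_simp
  rw [norm_ex]
  have hsum : HasSum (fun j : ℕ => (1 / 2 : ℝ) ^ (j + 1) * (2 * ‖ζ‖)) (2 * ‖ζ‖) := by
    have h1 : HasSum (fun j : ℕ => (1 / 2 : ℝ) * (1 / 2 : ℝ) ^ j) (1 / 2 * 2) :=
      hasSum_geometric_two.mul_left (1 / 2)
    have h2 := h1.mul_right (2 * ‖ζ‖)
    have e : (1 / 2 * 2 : ℝ) * (2 * ‖ζ‖) = 2 * ‖ζ‖ := by ring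
    rw [e] at h2
    refine h2.congr_fun ?_
    intro j
    rw [pow_succ]
    ring
  calc ∑' j, ‖(Ew θ r + Ew θ' r') j‖ ≤ ∑' j : ℕ, (1 / 2 : ℝ) ^ (j + 1) * (2 * ‖ζ‖) :=
        (ex_summable _).tsum_le_tsum hcoord hsum.summable
    _ = 2 * ‖ζ‖ := hsum.tsum_eq

theorem rad_excl {b : B} (h : QNb b) (hb : ∀ n : ℕ, b ^ n ≠ 0) (M : ℕ) :
    ∃ εb : ℝ, 0 < εb ∧ ∀ K₁ : ℕ, 1 ≤ K₁ → ∃ k₀ : ℕ, ∀ k : ℕ, k₀ ≤ k → ∀ (θ θ' : ℝ),
      1 / (k : ℝ) ^ 7 ≤ |θ - θ'| → |θ - θ'| ≤ 1 → ∀ (S S' : Finset G),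
      (∀ z ∈ S, ∀ z' ∈ S', NR b M εb (Ew θ (toC z / K₁) + Ew θ' (toC z' / K₁))) →
      ∀ (q q' : ℂ) (g : ℝ), 2 ^ (Nat.sqrt k) ≤ g → g ≤ 2 ^ (3 * k) →
      LineDense S q 1 g ((k : ℝ) ^ 10 * g) → LineDense S' q' 1 g ((k : ℝ) ^ 10 * g) → False := by
  obtain ⟨β, hβ⟩ : ∃ β : ℝ, β = ‖b ^ (M + 1)‖ := ⟨_, rfl⟩
  have hβ0 : 0 < β := by rw [hβ]; exact norm_pos_iff.2 (hb _)
  have hb1 : 0 < ‖b‖ + 1 := by positivity
  refine ⟨β / (2 * (‖b‖ + 1)), by positivity, fun K₁ hK₁ => ?_⟩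
  have hεb : 2 * (β / (2 * (‖b‖ + 1)) * ‖b‖) ≤ ‖b ^ (M + 1)‖ := by
    rw [← hβ]
    have : 2 * (β / (2 * (‖b‖ + 1)) * ‖b‖) = β * (‖b‖ / (‖b‖ + 1)) := by field_simp
    rw [this]
    have h1 : ‖b‖ / (‖b‖ + 1) ≤ 1 := by
      rw [div_le_one hb1]
      linarith
    nlinarith
  obtain ⟨ρ₀, hρ₀⟩ := no_plane h M (c := β / 2)
    (C := ‖b ^ M‖ + β / (2 * (‖b‖ + 1))) (by positivity)
  have hK : (0 : ℝ) < K₁ := by exact_mod_cast hK₁
  obtain ⟨N, hN⟩ := pow_unbounded_of_one_lt (max ρ₀ 1 * K₁) (one_lt_two)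
  refine ⟨max (N * N) 16001, fun k hk θ θ' hΔ1 hΔ2 S S' hNR q q' g hg1 hg2 hL hL' => ?_⟩
  have hkN : N ≤ Nat.sqrt k := by
    rw [Nat.le_sqrt]
    exact (le_max_left _ _).trans hk
  have hk16 : 16001 ≤ k := (le_max_right _ _).trans hk
  have hkr : (16001 : ℝ) ≤ k := by exact_mod_cast hk16
  have hk0 : (0 : ℝ) < k := by linarith
  have hgN : max ρ₀ 1 * K₁ < g := lt_of_lt_of_le hN ((pow_le_pow_right₀ one_le_two hkN).trans hg1)
  have hmx : (1 : ℝ) ≤ max ρ₀ 1 := le_max_right _ _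
  have hg0 : 0 < g := lt_trans (by positivity) hgN
  obtain ⟨ρ, hρ⟩ : ∃ ρ : ℝ, ρ = 4 * g / K₁ := ⟨_, rfl⟩
  have hρK : ρ * K₁ = 4 * g := by rw [hρ]; field_simp
  have hρmax : max ρ₀ 1 ≤ ρ := by
    have h1 : max ρ₀ 1 * K₁ ≤ ρ * K₁ := by rw [hρK]; linarith
    exact le_of_mul_le_mul_right h1 hK
  have hρ1 : 1 ≤ ρ := hmx.trans hρmax
  have hρg : ρ ≤ 4 * g := by
    have hK1 : (1 : ℝ) ≤ K₁ := by exact_mod_cast hK₁
    nlinarith
  have hlog : Real.log (200 * ρ) ≤ 3 * k := by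
    have h1 : (200 : ℝ) * ρ ≤ 2 ^ 10 * 2 ^ (3 * k) := by nlinarith
    have h2 := Real.log_le_log (by positivity) h1
    have h5 : Real.log ((2 : ℝ) ^ 10 * 2 ^ (3 * k)) =
        ((10 : ℕ) : ℝ) * Real.log 2 + ((3 * k : ℕ) : ℝ) * Real.log 2 := by
      rw [Real.log_mul (by positivity) (by positivity), Real.log_pow, Real.log_pow]
    rw [h5] at h2
    have h3 := Real.log_two_lt_d9
    push_cast at h2
    have h4 : (3 * (k : ℝ)) * Real.log 2 ≤ 3 * k * 0.7 :=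
      mul_le_mul_of_nonneg_left (by linarith) (by positivity)
    linarith
  have hlog0 : 0 ≤ Real.log (200 * ρ) := Real.log_nonneg (by linarith)
  obtain ⟨n, hn⟩ : ∃ n : ℕ, n = ⌈Real.log (200 * ρ) ^ 2⌉₊ := ⟨_, rfl⟩
  have hn1 : Real.log (200 * ρ) ^ 2 ≤ n := by rw [hn]; exact Nat.le_ceil _
  have hn2 : (n : ℝ) ≤ 10 * k ^ 2 := by
    have h1 := Nat.ceil_lt_add_one (sq_nonneg (Real.log (200 * ρ)))
    rw [← hn] at h1
    have h2 : Real.log (200 * ρ) ^ 2 ≤ (3 * k) ^ 2 := pow_le_pow_left₀ hlog0 hlog 2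
    nlinarith
  have hΔ0 : 0 < |θ - θ'| := lt_of_lt_of_le (by positivity) hΔ1
  have hsin : |θ - θ'| / 2 ≤ |Real.sin (θ' - θ)| := by
    have h1 : |Real.sin (θ' - θ)| = Real.sin |θ - θ'| := by
      rw [abs_sub_comm θ θ']
      rcases le_total 0 (θ' - θ) with h0 | h0
      · rw [abs_of_nonneg h0, abs_of_nonneg]
        exact Real.sin_nonneg_of_nonneg_of_le_pi h0 (by
          have := Real.pi_gt_three
          rw [abs_sub_comm, abs_of_nonneg h0] at hΔ2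
          linarith)
      · rw [abs_of_nonpos h0, Real.sin_neg, abs_of_nonpos]
        exact Real.sin_nonpos_of_nonpos_of_neg_pi_le h0 (by
          have := Real.pi_gt_three
          rw [abs_sub_comm, abs_of_nonpos h0] at hΔ2
          linarith)
    rw [h1]
    have h2 := Real.mul_le_sin hΔ0.le (by have := Real.pi_gt_three; linarith)
    have h3 : (1 / 2 : ℝ) ≤ 2 / Real.pi := by
      rw [div_le_div_iff₀ (by norm_num) Real.pi_pos]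
      have := Real.pi_le_four
      linarith
    have h4 := mul_le_mul_of_nonneg_right h3 hΔ0.le
    linarith
  have hsin0 : Real.sin (θ' - θ) ≠ 0 := by
    intro h0
    rw [h0, abs_zero] at hsin
    linarith
  have hΔk : 1 ≤ |θ - θ'| * k ^ 7 := by
    have h1 := mul_le_mul_of_nonneg_right hΔ1 (show (0 : ℝ) ≤ (k : ℝ) ^ 7 by positivity)
    rwa [one_div, inv_mul_cancel₀ (by positivity)] at h1
  -- bound for the coefficients
  have hcoef : ∀ (r : ℝ) (ζ : ℂ), |r| * |Real.sin (θ' - θ)| ≤ ‖ζ‖ → ‖ζ‖ ≤ 200 * ρ →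
      |r| * |θ - θ'| ≤ 2 * ‖ζ‖ ∧ |K₁ * r| ≤ 1600 * k ^ 7 * g := by
    intro r ζ h1 h2
    have h3 : |r| * |θ - θ'| ≤ 2 * ‖ζ‖ := by
      have h4 := mul_le_mul_of_nonneg_left hsin (abs_nonneg r)
      linarith
    refine ⟨h3, ?_⟩
    rw [abs_mul, abs_of_pos hK]
    have h4 : |r| ≤ 2 * ‖ζ‖ * k ^ 7 := by
      have h5 := mul_le_mul_of_nonneg_left hΔk (abs_nonneg r)
      have h6 := mul_le_mul_of_nonneg_right h3 (show (0 : ℝ) ≤ (k : ℝ) ^ 7 by positivity)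
      nlinarith
    calc (K₁ : ℝ) * |r| ≤ K₁ * (2 * ‖ζ‖ * k ^ 7) := mul_le_mul_of_nonneg_left h4 hK.le
      _ ≤ K₁ * (2 * (200 * ρ) * k ^ 7) := by
          apply mul_le_mul_of_nonneg_left _ hK.le
          apply mul_le_mul_of_nonneg_right _ (by positivity)
          linarith
      _ = 400 * (ρ * K₁) * k ^ 7 := by ring
      _ = 1600 * k ^ 7 * g := by rw [hρK]; ring
  obtain ⟨Q, hQ⟩ : ∃ Q : ℕ → Set Ex, Q = fun i : ℕ => {y : Ex | ∃ z ∈ S, ∃ z' ∈ S',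
      y = Ew θ (toC z / K₁) + Ew θ' (toC z' / K₁) ∧ ∃ a a' : ℝ,
        |a| ≤ 1600 * (i : ℝ) * k ^ 7 * g ∧ |a'| ≤ 1600 * (i : ℝ) * k ^ 7 * g ∧
        ‖toC z - (q + a)‖ ≤ g ∧ ‖toC z' - (q' + a')‖ ≤ g} := ⟨_, rfl⟩
  refine hρ₀ ρ ((le_max_left _ _).trans hρmax) n hn1 Q ?_ ?_ ?_
  · obtain ⟨z, hz, hz1⟩ := hL 0 (by rw [abs_zero]; positivity)
    obtain ⟨z', hz', hz1'⟩ := hL' 0 (by rw [abs_zero]; positivity)
    refine ⟨Ew θ (toC z / K₁) + Ew θ' (toC z' / K₁), ?_⟩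
    rw [hQ]
    refine ⟨z, hz, z', hz', rfl, 0, 0, ?_, ?_, ?_, ?_⟩
    · rw [abs_zero]; positivity
    · rw [abs_zero]; positivity
    · simpa using hz1
    · simpa using hz1'
  · intro i _ y hy
    rw [hQ] at hy
    obtain ⟨z, hz, z', hz', rfl, _⟩ := hy
    have h1 := NR_low (hNR z hz z' hz') hεb
    rw [← hβ] at h1
    exact ⟨h1.2, h1.1⟩
  · intro i hi y hy ζ hζ
    rw [hQ] at hy
    obtain ⟨z, hz, z', hz', rfl, a, a', ha, ha', hza, hza'⟩ := hy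
    obtain ⟨r, r', hrr, hr, hr'⟩ := rx_decomp hsin0 ζ
    obtain ⟨-, hr2⟩ := hcoef r ζ hr hζ
    obtain ⟨hr3, hr2'⟩ := hcoef r' ζ hr' hζ
    have hin : (i : ℝ) + 1 ≤ 10 * k ^ 2 := by
      have : ((i + 1 : ℕ) : ℝ) ≤ n := by exact_mod_cast hi
      push_cast at this
      linarith
    have hstep : ∀ c d : ℝ, |c| ≤ 1600 * i * k ^ 7 * g → |d| ≤ 1600 * k ^ 7 * g →
        |c + d| ≤ 1600 * ((i + 1 : ℕ) : ℝ) * k ^ 7 * g ∧ |c + d| ≤ (k : ℝ) ^ 10 * g := by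
      intro c d hc hd
      have h1 : |c + d| ≤ 1600 * ((i + 1 : ℕ) : ℝ) * k ^ 7 * g := by
        push_cast
        calc |c + d| ≤ |c| + |d| := abs_add_le _ _
          _ ≤ 1600 * i * k ^ 7 * g + 1600 * k ^ 7 * g := add_le_add hc hd
          _ = 1600 * ((i : ℝ) + 1) * k ^ 7 * g := by ring
      refine ⟨h1, h1.trans ?_⟩
      push_cast
      apply mul_le_mul_of_nonneg_right _ hg0.le
      have h2 : (1600 : ℝ) * ((i : ℝ) + 1) ≤ k ^ 3 := by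
        have : (1600 : ℝ) * ((i : ℝ) + 1) ≤ 16000 * k ^ 2 := by linarith
        have h3 : (16000 : ℝ) * k ^ 2 ≤ k * k ^ 2 :=
          mul_le_mul_of_nonneg_right (by linarith) (by positivity)
        calc (1600 : ℝ) * ((i : ℝ) + 1) ≤ 16000 * k ^ 2 := this
          _ ≤ k * k ^ 2 := h3
          _ = k ^ 3 := by ring
      calc 1600 * ((i : ℝ) + 1) * k ^ 7 ≤ (k : ℝ) ^ 3 * k ^ 7 :=
            mul_le_mul_of_nonneg_right h2 (by positivity)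
        _ = (k : ℝ) ^ 10 := by ring
    obtain ⟨h11, h12⟩ := hstep a (K₁ * r) ha hr2
    obtain ⟨h21, h22⟩ := hstep a' (K₁ * r') ha' hr2'
    obtain ⟨z₁, hz₁, hd₁⟩ := hL _ h12
    obtain ⟨z₁', hz₁', hd₁'⟩ := hL' _ h22
    rw [mul_one] at hd₁ hd₁'
    have herr : ∀ (z z₁ : G) (q : ℂ) (a r : ℝ), ‖toC z - (q + a)‖ ≤ g →
        ‖toC z₁ - (q + ((a + K₁ * r : ℝ) : ℂ))‖ ≤ g →
        ∃ e : ℂ, ‖e‖ ≤ 2 * g / K₁ ∧ toC z₁ / K₁ - toC z / K₁ = r + e := by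
      intro z z₁ q a r h1 h2
      have hKc : (K₁ : ℂ) ≠ 0 := by exact_mod_cast hK.ne'
      refine ⟨((toC z₁ - (q + ((a + K₁ * r : ℝ) : ℂ))) - (toC z - (q + a))) / K₁, ?_, ?_⟩
      · rw [norm_div, Complex.norm_natCast]
        apply div_le_div_of_nonneg_right _ hK.le
        calc ‖(toC z₁ - (q + ((a + K₁ * r : ℝ) : ℂ))) - (toC z - (q + a))‖
            ≤ ‖toC z₁ - (q + ((a + K₁ * r : ℝ) : ℂ))‖ + ‖toC z - (q + a)‖ := norm_sub_le _ _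
          _ ≤ 2 * g := by linarith
      · push_cast
        field_simp
        ring
    obtain ⟨e, he, hee⟩ := herr z z₁ q a r hza hd₁
    obtain ⟨e', he', hee'⟩ := herr z' z₁' q' a' r' hza' hd₁'
    have hdiff : Ew θ (toC z₁ / K₁) + Ew θ' (toC z₁' / K₁) -
        (Ew θ (toC z / K₁) + Ew θ' (toC z' / K₁)) =
        (Ew θ r + Ew θ' r') + (Ew θ e + Ew θ' e') := by
      have h1 : Ew θ (toC z₁ / K₁) - Ew θ (toC z / K₁) = Ew θ r + Ew θ e := by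
        rw [← Ew_sub, hee, Ew_add]
      have h2 : Ew θ' (toC z₁' / K₁) - Ew θ' (toC z' / K₁) = Ew θ' r' + Ew θ' e' := by
        rw [← Ew_sub, hee', Ew_add]
      calc Ew θ (toC z₁ / K₁) + Ew θ' (toC z₁' / K₁) -
          (Ew θ (toC z / K₁) + Ew θ' (toC z' / K₁))
          = (Ew θ (toC z₁ / K₁) - Ew θ (toC z / K₁)) +
            (Ew θ' (toC z₁' / K₁) - Ew θ' (toC z' / K₁)) := by abel
        _ = (Ew θ r + Ew θ' r') + (Ew θ e + Ew θ' e') := by rw [h1, h2]; abel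
    have h4g : 2 * g / K₁ + 2 * g / K₁ = ρ := by rw [hρ]; ring
    refine ⟨Ew θ (toC z₁ / K₁) + Ew θ' (toC z₁' / K₁), ?_, ?_, ?_⟩
    · rw [hQ]
      refine ⟨z₁, hz₁, z₁', hz₁', rfl, a + K₁ * r, a' + K₁ * r', h11, h21, ?_, ?_⟩
      · exact hd₁
      · exact hd₁'
    · rw [hdiff]
      have h1 : ((Ew θ r + Ew θ' r') + (Ew θ e + Ew θ' e')) 0 =
          (Ew θ r 0 + Ew θ' r' 0) + (Ew θ e 0 + Ew θ' e' 0) := rfl
      have h2 : 2 * ((Ew θ r + Ew θ' r') + (Ew θ e + Ew θ' e')) 0 - ζ =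
          Complex.exp (θ * Complex.I) * e + Complex.exp (θ' * Complex.I) * e' := by
        rw [h1]
        have g1 := Ew_zero_coord θ (r : ℂ)
        have g2 := Ew_zero_coord θ' (r' : ℂ)
        have g3 := Ew_zero_coord θ e
        have g4 := Ew_zero_coord θ' e'
        linear_combination g1 + g2 + g3 + g4 + hrr
      rw [h2]
      refine (norm_add_le _ _).trans ?_
      rw [norm_mul, norm_mul, Complex.norm_exp_ofReal_mul_I, Complex.norm_exp_ofReal_mul_I, one_mul,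
        one_mul]
      linarith
    · rw [hdiff]
      have h1 := norm_add_le (Ew θ r + Ew θ' r') (Ew θ e + Ew θ' e')
      have h2 := norm_add_le (Ew θ e) (Ew θ' e')
      have h3 := Ew_norm θ e
      have h4 := Ew_norm θ' e'
      have h5 := rx_norm r r' hrr hr3
      linarith

end Pool.Agent.Work.MP_0d53be_an.Full
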