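import Pool.Agent.Work.MP_0d53be_an.Full.C.Fan

/-!
# Z/Seven: choosing fans

`act_card`: if any two `w, w' ∈ W` have `|ang Nf w - ang Nf w'| < 1/k^7` (`Nf ≥ 1`, `k ≥ 1`) then
`card W ≤ Nf/k^7 + 1`: `|w - w'| < Nf/(2π k^7)`, so `W` lies in an interval of integers of length
`< Nf/(2πk^7)`.

`seven`: there is `k₀` such that for `k ≥ k₀`, `Nf ≥ k^200`, `W ⊆ [0, Nf)` finite with
`Nf ≤ k^5 card W` there is `w : Fin 7 → ℕ` with `w i ∈ W`, `|ang (w i) - ang (w 0)| ≤ 1/k^139` and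
`|ang (w i) - ang (w j)| ≥ 1/k^147` for `i ≠ j`.
Proof. `B = ⌊Nf/k^140⌋ ≥ 1`, `Nf/(2k^140) ≤ B`. Cut `[0, Nf)` in blocks `[cB, (c+1)B)`; at most
`Nf/B + 1 ≤ 2k^140 + 1 ≤ 3k^140` blocks meet it. Some block contains at least
`card W/(3k^140) ≥ Nf/(3k^145) ≥ B/(3k^5)`... elements of `W`; call this number `n`,
`n ≥ Nf/(3 k^145)`. Sort them increasingly, `x_0 < x_1 < … < x_{n-1}`, `e = ⌊n/7⌋ ≥ Nf/(30 k^145)`, and
take `w i = x_{i e}`, `i = 0, …, 6`. Then `|w i - w j| ≥ e` for `i ≠ j`, so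
`|ang (w i) - ang (w j)| ≥ 2π e/Nf ≥ 1/k^147`, and `|w i - w 0| < B`, so
`|ang (w i) - ang (w 0)| ≤ 2π B/Nf ≤ 2π/k^140 ≤ 1/k^139`.
-/

set_option autoImplicit false

namespace Pool.Agent.Work.MP_0d53be_an.Full

theorem act_card {k Nf : ℕ} (hk : 1 ≤ k) (hN : 1 ≤ Nf) {W : Finset ℕ}
    (h : ∀ w ∈ W, ∀ w' ∈ W, |ang Nf w - ang Nf w'| < 1 / (k : ℝ) ^ 7) :
    (W.card : ℝ) ≤ Nf / (k : ℝ) ^ 7 + 1 := by
  have hk0 : (0 : ℝ) < (k : ℝ) ^ 7 := by
    have : (0 : ℝ) < k := by exact_mod_cast hk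
    positivity
  have hN0 : (0 : ℝ) < Nf := by exact_mod_cast hN
  rcases W.eq_empty_or_nonempty with hW | hW
  · rw [hW, Finset.card_empty, Nat.cast_zero]
    positivity
  · have h1 := h _ (W.max'_mem hW) _ (W.min'_mem hW)
    have h2 : W ⊆ Finset.Icc (W.min' hW) (W.max' hW) := fun w hw =>
      Finset.mem_Icc.2 ⟨W.min'_le w hw, W.le_max' w hw⟩
    have h3 := Finset.card_le_card h2
    rw [Nat.card_Icc] at h3
    have h4 : W.min' hW ≤ W.max' hW := W.min'_le _ (W.max'_mem hW)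
    have h5 : (W.card : ℝ) ≤ (W.max' hW : ℝ) - W.min' hW + 1 := by
      have h6 : W.card + W.min' hW ≤ W.max' hW + 1 := by omega
      have h7 : (W.card : ℝ) + W.min' hW ≤ W.max' hW + 1 := by exact_mod_cast h6
      linarith
    have h6 : (W.min' hW : ℝ) ≤ W.max' hW := by exact_mod_cast h4
    have h7 : ang Nf (W.max' hW) - ang Nf (W.min' hW) =
        2 * Real.pi * ((W.max' hW : ℝ) - W.min' hW) / Nf := by
      unfold ang
      ring
    have h8 := (le_abs_self _).trans_lt h1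
    rw [h7, div_lt_div_iff₀ hN0 hk0] at h8
    have h9 : (W.max' hW : ℝ) - W.min' hW ≤ Nf / (k : ℝ) ^ 7 := by
      rw [le_div_iff₀ hk0]
      have hpi := Real.pi_gt_three
      have h10 : 0 ≤ ((W.max' hW : ℝ) - W.min' hW) * (k : ℝ) ^ 7 := by
        have : 0 ≤ (W.max' hW : ℝ) - W.min' hW := by linarith
        positivity
      nlinarith
    linarith

private theorem emb_gap {N : ℕ} (f : Fin N ↪o ℕ) (i d : ℕ) (h : i + d < N) :
    f ⟨i, by omega⟩ + d ≤ f ⟨i + d, h⟩ := by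
  induction d with
  | zero => exact le_rfl
  | succ d ih =>
    have h1 := ih (by omega)
    have h2 : f ⟨i + d, by omega⟩ < f ⟨i + (d + 1), h⟩ := f.strictMono (by
      rw [Fin.lt_def]
      show i + d < i + (d + 1)
      omega)
    omega

private theorem ang_diff (Nf w w' : ℕ) :
    |ang Nf w - ang Nf w'| = 2 * Real.pi * |(w : ℝ) - w'| / Nf := by
  have h1 : ang Nf w - ang Nf w' = 2 * Real.pi * ((w : ℝ) - w') / Nf := by
    unfold ang
    ring
  rw [h1, abs_div, abs_mul, abs_of_pos Real.two_pi_pos, Nat.abs_cast]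

theorem seven : ∃ k₀ : ℕ, ∀ k : ℕ, k₀ ≤ k → ∀ Nf : ℕ, k ^ 200 ≤ Nf → ∀ W : Finset ℕ,
    (∀ w ∈ W, w < Nf) → Nf ≤ k ^ 5 * W.card →
    ∃ w : Fin 7 → ℕ, (∀ i, w i ∈ W) ∧ (∀ i, |ang Nf (w i) - ang Nf (w 0)| ≤ 1 / (k : ℝ) ^ 139) ∧
      ∀ i j, i ≠ j → 1 / (k : ℝ) ^ 147 ≤ |ang Nf (w i) - ang Nf (w j)| := by
  refine ⟨7, fun k hk Nf hNf W hW hcard => ?_⟩
  have hk0 : 0 < k := by omega
  have hk0' : (0 : ℝ) < k := by exact_mod_cast hk0
  have hk7 : (7 : ℝ) ≤ k := by exact_mod_cast hk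
  obtain ⟨Bl, hBl⟩ : ∃ Bl, Bl = Nf / k ^ 140 := ⟨_, rfl⟩
  obtain ⟨e, he⟩ : ∃ e, e = Nf / (15 * k ^ 145) := ⟨_, rfl⟩
  have hp140 : 0 < k ^ 140 := by positivity
  have hp145 : 0 < 15 * k ^ 145 := by positivity
  have h55 : 15 ≤ k ^ 55 := by
    calc 15 ≤ 7 ^ 55 := by norm_num
      _ ≤ k ^ 55 := Nat.pow_le_pow_left hk 55
  have h200 : 15 * k ^ 145 ≤ Nf := by
    refine le_trans ?_ hNf
    calc 15 * k ^ 145 ≤ k ^ 55 * k ^ 145 := Nat.mul_le_mul_right _ h55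
      _ = k ^ 200 := by rw [← pow_add]
  have he1 : 1 ≤ e := by
    rw [he]
    exact (Nat.one_le_div_iff hp145).2 h200
  have he2 : e * (15 * k ^ 145) ≤ Nf := by
    rw [he]
    exact Nat.div_mul_le_self _ _
  have he3 : Nf < (e + 1) * (15 * k ^ 145) := by
    rw [he]
    exact (Nat.div_lt_iff_lt_mul hp145).1 (Nat.lt_succ_self _)
  have hB1 : 1 ≤ Bl := by
    rw [hBl]
    refine (Nat.one_le_div_iff hp140).2 (le_trans ?_ hNf)
    exact Nat.pow_le_pow_right hk0 (by norm_num)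
  have hB2 : Bl * k ^ 140 ≤ Nf := by
    rw [hBl]
    exact Nat.div_mul_le_self _ _
  have hB3 : Nf < (Bl + 1) * k ^ 140 := by
    rw [hBl]
    exact (Nat.div_lt_iff_lt_mul hp140).1 (Nat.lt_succ_self _)
  have hmaps : ∀ w ∈ W, w / Bl ∈ Finset.range (2 * k ^ 140) := by
    intro w hw
    rw [Finset.mem_range, Nat.div_lt_iff_lt_mul (by omega)]
    have h1 := hW w hw
    have h2 : (Bl + 1) * k ^ 140 ≤ 2 * k ^ 140 * Bl := by
      have : k ^ 140 * 1 ≤ k ^ 140 * Bl := Nat.mul_le_mul_left _ hB1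
      nlinarith
    omega
  have hpig : (Finset.range (2 * k ^ 140)).card * (7 * e) ≤ W.card := by
    rw [Finset.card_range]
    have h1 : k ^ 5 * (2 * k ^ 140 * (7 * e)) ≤ k ^ 5 * W.card := by
      refine le_trans ?_ hcard
      refine le_trans ?_ he2
      have h2 : k ^ 5 * (2 * k ^ 140 * (7 * e)) = 14 * (e * k ^ 145) := by ring
      have h3 : e * (15 * k ^ 145) = 15 * (e * k ^ 145) := by ring
      rw [h2, h3]
      exact Nat.mul_le_mul_right _ (by norm_num)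
    exact Nat.le_of_mul_le_mul_left h1 (by positivity)
  obtain ⟨c, -, hc⟩ := Finset.exists_le_card_fiber_of_mul_le_card_of_maps_to hmaps
    ⟨0, Finset.mem_range.2 (by positivity)⟩ hpig
  obtain ⟨F, hF⟩ : ∃ F, F = W.filter (fun w => w / Bl = c) := ⟨_, rfl⟩
  rw [← hF] at hc
  have hFm : ∀ i : Fin F.card, F.orderEmbOfFin rfl i ∈ F := fun i => F.orderEmbOfFin_mem rfl i
  have hidx : ∀ i : Fin 7, i.val * e < F.card := by
    intro i
    have h1 : i.val * e ≤ 6 * e := Nat.mul_le_mul_right _ (by omega)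
    omega
  have hgap : ∀ i j : Fin 7, i < j →
      F.orderEmbOfFin rfl ⟨i.val * e, hidx i⟩ + e ≤ F.orderEmbOfFin rfl ⟨j.val * e, hidx j⟩ := by
    intro i j hij
    have h0 : i.val + 1 ≤ j.val := hij
    obtain ⟨d, hd⟩ := Nat.exists_eq_add_of_le (Nat.mul_le_mul_right e h0)
    have h1 := emb_gap (F.orderEmbOfFin rfl) (i.val * e) (e + d) (by
      have := hidx j
      rw [hd] at this
      have h3 : (i.val + 1) * e = i.val * e + e := by ring
      omega)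
    have h2 : (⟨i.val * e + (e + d), by
        have := hidx j
        rw [hd] at this
        have h3 : (i.val + 1) * e = i.val * e + e := by ring
        omega⟩ : Fin F.card) = ⟨j.val * e, hidx j⟩ := by
      apply Fin.ext
      show i.val * e + (e + d) = j.val * e
      rw [hd]
      ring
    rw [h2] at h1
    omega
  have hNf0 : (0 : ℝ) < Nf := by
    have : 0 < Nf := lt_of_lt_of_le hp145 h200
    exact_mod_cast this
  have hFm' : ∀ x ∈ F, x ∈ W ∧ x / Bl = c := by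
    intro x hx
    rw [hF] at hx
    exact Finset.mem_filter.1 hx
  have hclose : ∀ x ∈ F, ∀ y ∈ F, |(x : ℝ) - y| ≤ Bl := by
    intro x hx y hy
    have h3 := (hFm' x hx).2
    have h4 := (hFm' y hy).2
    have h5 : x < y + Bl := by
      have h6 := Nat.div_add_mod x Bl
      have h7 := Nat.div_add_mod y Bl
      have h8 := Nat.mod_lt x (show 0 < Bl by omega)
      rw [h3] at h6
      rw [h4] at h7
      omega
    have h6 : y < x + Bl := by
      have h6 := Nat.div_add_mod x Bl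
      have h7 := Nat.div_add_mod y Bl
      have h8 := Nat.mod_lt y (show 0 < Bl by omega)
      rw [h3] at h6
      rw [h4] at h7
      omega
    have h8 : (x : ℝ) < y + Bl := by exact_mod_cast h5
    have h9 : (y : ℝ) < x + Bl := by exact_mod_cast h6
    rw [abs_le]
    constructor <;> linarith
  refine ⟨fun i => F.orderEmbOfFin rfl ⟨i.val * e, hidx i⟩, fun i => (hFm' _ (hFm _)).1, fun i => ?_,
    fun i j hij => ?_⟩
  · rw [ang_diff]
    have h7 := hclose _ (hFm ⟨i.val * e, hidx i⟩) _ (hFm ⟨(0 : Fin 7).val * e, hidx 0⟩)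
    show 2 * Real.pi * |((F.orderEmbOfFin rfl ⟨i.val * e, hidx i⟩ : ℕ) : ℝ) -
        ((F.orderEmbOfFin rfl ⟨(0 : Fin 7).val * e, hidx 0⟩ : ℕ) : ℝ)| / Nf ≤ 1 / (k : ℝ) ^ 139
    generalize ((F.orderEmbOfFin rfl ⟨i.val * e, hidx i⟩ : ℕ) : ℝ) = x at *
    generalize ((F.orderEmbOfFin rfl ⟨(0 : Fin 7).val * e, hidx 0⟩ : ℕ) : ℝ) = y at *
    have h8 : (Bl : ℝ) * (k : ℝ) ^ 140 ≤ Nf := by exact_mod_cast hB2
    rw [div_le_div_iff₀ hNf0 (by positivity), one_mul]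
    have h9 : 2 * Real.pi ≤ k := by
      have := Real.pi_lt_d2
      linarith
    calc 2 * Real.pi * |x - y| * (k : ℝ) ^ 139 ≤ k * Bl * (k : ℝ) ^ 139 := by
          refine mul_le_mul_of_nonneg_right ?_ (by positivity)
          exact mul_le_mul h9 h7 (abs_nonneg _) hk0'.le
      _ = Bl * (k : ℝ) ^ 140 := by ring
      _ ≤ Nf := h8
  · rw [ang_diff]
    have h1 : (e : ℝ) ≤ |((F.orderEmbOfFin rfl ⟨i.val * e, hidx i⟩ : ℕ) : ℝ) -
        ((F.orderEmbOfFin rfl ⟨j.val * e, hidx j⟩ : ℕ) : ℝ)| := by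
      rcases lt_or_gt_of_ne hij with h | h
      · have h2 := hgap i j h
        have h3 : ((F.orderEmbOfFin rfl ⟨i.val * e, hidx i⟩ : ℕ) : ℝ) + e ≤
          ((F.orderEmbOfFin rfl ⟨j.val * e, hidx j⟩ : ℕ) : ℝ) := by exact_mod_cast h2
        rw [abs_sub_comm]
        exact le_trans (by linarith) (le_abs_self _)
      · have h2 := hgap j i h
        have h3 : ((F.orderEmbOfFin rfl ⟨j.val * e, hidx j⟩ : ℕ) : ℝ) + e ≤
          ((F.orderEmbOfFin rfl ⟨i.val * e, hidx i⟩ : ℕ) : ℝ) := by exact_mod_cast h2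
        exact le_trans (by linarith) (le_abs_self _)
    have h2 : (Nf : ℝ) ≤ 30 * e * (k : ℝ) ^ 145 := by
      have h3 : Nf ≤ 30 * e * k ^ 145 := by
        have h4 : (e + 1) * (15 * k ^ 145) ≤ (2 * e) * (15 * k ^ 145) :=
          Nat.mul_le_mul_right _ (by omega)
        have h5 : (2 * e) * (15 * k ^ 145) = 30 * e * k ^ 145 := by ring
        omega
      exact_mod_cast h3
    rw [div_le_div_iff₀ (by positivity) hNf0, one_mul]
    have hpi := Real.pi_gt_three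
    have he0 : (0 : ℝ) ≤ e := Nat.cast_nonneg e
    have h3 : 6 * (e : ℝ) * (k : ℝ) ^ 147 ≤ 2 * Real.pi * |((F.orderEmbOfFin rfl ⟨i.val * e, hidx i⟩ : ℕ) : ℝ) -
        ((F.orderEmbOfFin rfl ⟨j.val * e, hidx j⟩ : ℕ) : ℝ)| * (k : ℝ) ^ 147 := by
      refine mul_le_mul_of_nonneg_right ?_ (by positivity)
      exact mul_le_mul (by linarith) h1 he0 (by positivity)
    refine le_trans (h2.trans ?_) h3
    have h4 : (5 : ℝ) ≤ (k : ℝ) ^ 2 := by nlinarith
    calc 30 * (e : ℝ) * (k : ℝ) ^ 145 = 6 * e * (k : ℝ) ^ 145 * 5 := by ring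
      _ ≤ 6 * e * (k : ℝ) ^ 145 * (k : ℝ) ^ 2 := mul_le_mul_of_nonneg_left h4 (by positivity)
      _ = 6 * e * (k : ℝ) ^ 147 := by ring

end Pool.Agent.Work.MP_0d53be_an.Full
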