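import Pool.Agent.Work.MP_0d53be_an.Full.Z.OneFan
import Pool.Agent.Work.MP_0d53be_an.Full.Z.PlaneX
import Pool.Agent.Work.MP_0d53be_an.Full.Z.RadX
import Pool.Agent.Work.MP_0d53be_an.Full.Z.Seven
import Pool.Agent.Work.MP_0d53be_an.Full.L.Lines7
import Pool.Agent.Work.MP_0d53be_an.Full.C.SumCount
import Pool.Agent.Work.MP_0d53be_an.Full.C.Good

/-!
# Z/Main: the set of angles with a near return in a dyadic block is small

There is `ε > 0` such that for all large `k` the set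
`U = (⋃_{2^(k-1) < n ≤ 2^k} Vn b ε n) ∩ (0, 2π]` has measure `< 1/k²`.

Proof. `one_fan` gives `m`. For `j < m` take the `ε̄` of `plane_excl` with `M = 2^(j+1)`, of `rad_excl`
with `M = 2^(j+2)` and of `lines7` with `p = 3 * 2^(j+1)`; let `ε̄` be the minimum of all of them.
`sums_count` with `m`, `ε̄` gives `ε, K₁, c₀, C`, `NearProp b (4 * 2^m) ε̄ ε K₁ c₀` and the counts. Let
`k` be large, suppose `|U| ≥ 1/k²`. `H = c₀ 2^((k+1)/2)`, `Nf = 7H`: `c₀² 2^k ≤ Nf²`, `Nf ≤ 2^k` for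
large `k`. `good_fans` gives `b₀ < 7` and `W`. Write `F w = fan b ε k K₁ Nf w`, `S w j = sums (F w) j`.
(near) A sum of `M ≤ 4 * 2^m` points from fans is a near return: for points `x ∈ S w (j+1)`,
`x' ∈ S w' (j+1)`, `x'' ∈ S w'' (j+1)` (`j < m`), `sums_decomp` writes them as sums of `2^(j+1)` points of
`F w`, `F w'`, `F w''`; by `NearProp` with `y` equal to the sum (additivity of `Ew`; for two or three
families use `Fin` of the sum of the lengths, e.g. `Fin.append`/`Fin.addCases`, or a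
reformulation with `Finset`/`List` sums):
`NR b (2^(j+1)) ε̄ (Ew (ang w) (toC x/K₁))`, `NR b (2^(j+2)) ε̄ (Ew .. x + Ew .. x')`,
`NR b (3 * 2^(j+1)) ε̄ (Ew .. x + Ew .. x' + Ew .. x'')`. (`NR_mono` for the individual `ε̄`.)
(a) of `one_fan` for `F w` with `K = max (K₁ 2^m, 7 K₁ 2^m)` (any constant depending on
`K₁, m` only): `fan_bounds`: `z.1 = K₁N ≤ K₁ 2^m 2^k`, `0 ≤ z.2 ≤ 2π z.1/Nf ≤ 7 K₁ 2^m 2^k/Nf
≤ 7K₁ 2^m √(2^k)` (`Nf ≥ √(2^k)`). (b): `good_fans`. (c): `plane_excl`.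
(d) Remove exceptional fans. For `j < m` and `i` with `k + K ≤ 2iΛ`, `iΛ ≤ 2k` (`Λ = Nat.sqrt k`) let
`Act j i` be the set of the `w ∈ W` such that `S w (j+1)` is `LineDense` for some `q` in the direction
`1` with mesh `g = 2^((i+1)Λ)/k^11` and length `2^((i+1)Λ)/k = k^10 g`. `2^Λ ≤ g ≤ 2^(3k)` (`(i+1)Λ ≥ k/2` is much larger than `Λ + 11 log₂ k`; `(i+1)Λ ≤ 3k`). Two elements
`w, w' ∈ Act j i` have `|ang w - ang w'| < k^(-7)`, by `rad_excl` (the angles of the block differ by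
less than `2π/7 < 1`). So `card (Act j i) ≤ Nf/k^7 + 1` (`act_card`). There are at most
`m (2k + 1)` pairs `(j, i)`, so at most `Nf/k^5` exceptional `w`; the others form `W'` with
`Nf ≤ 2k³ card W'`.
(e) For `w ∈ W'` `one_fan` gives `(j, a)` with `j < m`, `a ≤ k`, `q`, `β`. By the pigeonhole principle
some `(j, a)` occurs for a subset `W'' ⊆ W'` with `Nf ≤ k^5 card W''`. `seven` gives seven of them
(`Nf ≥ 2^(k/2) ≥ k^200`), and `lines7` with `g = 2^(a+ℓ+2)`, `L = 2^(12a)/2^20` gives a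
contradiction: `2^Λ ≤ g`, and `g^11 ≤ L` because `11(a + ℓ + 2) + 20 ≤ 12a`
(`ℓ ≤ k^(1-1/200)`, `a ≥ k^(1-1/400)`).
-/

set_option autoImplicit false

namespace Pool.Agent.Work.MP_0d53be_an.Full

open MeasureTheory

variable {B : Type*} [NormedCommRing B] [NormedAlgebra ℂ B] [CompleteSpace B]

private theorem mz_inf {P : ℕ → ℝ → Prop} (hex : ∀ j, ∃ ε : ℝ, 0 < ε ∧ P j ε)
    (hanti : ∀ j ε ε', ε' ≤ ε → P j ε → P j ε') (m : ℕ) : ∃ ε : ℝ, 0 < ε ∧ ∀ j < m, P j ε := by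
  induction m with
  | zero => exact ⟨1, one_pos, fun j hj => absurd hj (Nat.not_lt_zero j)⟩
  | succ m ih =>
    obtain ⟨ε₁, h1, h2⟩ := ih
    obtain ⟨ε₂, h3, h4⟩ := hex m
    refine ⟨min ε₁ ε₂, lt_min h1 h3, ?_⟩
    intro j hj
    rcases Nat.lt_succ_iff_lt_or_eq.1 hj with h5 | h5
    · exact hanti j ε₁ _ (min_le_left _ _) (h2 j h5)
    · rw [h5]
      exact hanti m ε₂ _ (min_le_right _ _) h4

private theorem mz_all {Q : ℕ → ℕ → Prop} (m : ℕ) (h : ∀ j < m, ∃ k₀ : ℕ, ∀ k, k₀ ≤ k → Q j k) :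
    ∃ k₀ : ℕ, ∀ k, k₀ ≤ k → ∀ j < m, Q j k := by
  induction m with
  | zero => exact ⟨0, fun k _ j hj => absurd hj (Nat.not_lt_zero j)⟩
  | succ m ih =>
    obtain ⟨k₁, h1⟩ := ih (fun j hj => h j (by omega))
    obtain ⟨k₂, h2⟩ := h m (by omega)
    refine ⟨max k₁ k₂, ?_⟩
    intro k hk j hj
    rcases Nat.lt_succ_iff_lt_or_eq.1 hj with h5 | h5
    · exact h1 k (le_trans (le_max_left _ _) hk) j h5
    · rw [h5]
      exact h2 k (le_trans (le_max_right _ _) hk)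

private def mzA (b : B) (M : ℕ) (εb : ℝ) : Prop :=
  ∀ K₁ : ℕ, 1 ≤ K₁ → ∃ k₀ : ℕ, ∀ k : ℕ, k₀ ≤ k → ∀ (θ : ℝ) (S : Finset G),
      (∀ z ∈ S, NR b M εb (Ew θ (toC z / K₁))) → ∀ (q : ℂ) (x : ℝ), 2 ^ (Nat.sqrt k) ≤ x →
      x ≤ 2 ^ (2 * k) → ¬ PlaneDense S q x ((k : ℝ) ^ 11)

private def mzB (b : B) (M : ℕ) (εb : ℝ) : Prop :=
  ∀ K₁ : ℕ, 1 ≤ K₁ → ∃ k₀ : ℕ, ∀ k : ℕ, k₀ ≤ k → ∀ (θ θ' : ℝ),
      1 / (k : ℝ) ^ 7 ≤ |θ - θ'| → |θ - θ'| ≤ 1 → ∀ (S S' : Finset G),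
      (∀ z ∈ S, ∀ z' ∈ S', NR b M εb (Ew θ (toC z / K₁) + Ew θ' (toC z' / K₁))) →
      ∀ (q q' : ℂ) (g : ℝ), 2 ^ (Nat.sqrt k) ≤ g → g ≤ 2 ^ (3 * k) →
      LineDense S q 1 g ((k : ℝ) ^ 10 * g) → LineDense S' q' 1 g ((k : ℝ) ^ 10 * g) → False

private def mzC (b : B) (p : ℕ) (εb : ℝ) : Prop :=
  ∀ K₁ : ℕ, 1 ≤ K₁ → ∃ k₀ : ℕ, ∀ k : ℕ, k₀ ≤ k → ∀ θ : Fin 7 → ℝ,
      (∀ i, |θ i - θ 0| ≤ 1 / (k : ℝ) ^ 139) → (∀ i j, i ≠ j → 1 / (k : ℝ) ^ 147 ≤ |θ i - θ j|) →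
      ∀ S : Fin 7 → Finset G,
      (∀ i j l, i ≠ j → j ≠ l → i ≠ l → ∀ x ∈ S i, ∀ y ∈ S j, ∀ z ∈ S l,
        NR b p εb (Ew (θ i) (toC x / K₁) + Ew (θ j) (toC y / K₁) + Ew (θ l) (toC z / K₁))) →
      ∀ (q β : Fin 7 → ℂ) (g L : ℝ), (∀ i, ‖β i‖ = 1) → 2 ^ (Nat.sqrt k) ≤ g → g ^ 11 ≤ L →
      (∀ i, LineDense (S i) (q i) (β i) g L) → False

private theorem mzA_anti {b : B} {M : ℕ} {ε ε' : ℝ} (hε : ε' ≤ ε) (h : mzA b M ε) :
    mzA b M ε' := by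
  intro K₁ hK
  obtain ⟨k₀, hk₀⟩ := h K₁ hK
  exact ⟨k₀, fun k hk θ S hS => hk₀ k hk θ S (fun z hz => NR_mono hε (hS z hz))⟩

private theorem mzB_anti {b : B} {M : ℕ} {ε ε' : ℝ} (hε : ε' ≤ ε) (h : mzB b M ε) :
    mzB b M ε' := by
  intro K₁ hK
  obtain ⟨k₀, hk₀⟩ := h K₁ hK
  exact ⟨k₀, fun k hk θ θ' h1 h2 S S' hS => hk₀ k hk θ θ' h1 h2 S S'
    (fun z hz z' hz' => NR_mono hε (hS z hz z' hz'))⟩

private theorem mzC_anti {b : B} {M : ℕ} {ε ε' : ℝ} (hε : ε' ≤ ε) (h : mzC b M ε) :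
    mzC b M ε' := by
  intro K₁ hK
  obtain ⟨k₀, hk₀⟩ := h K₁ hK
  exact ⟨k₀, fun k hk θ h1 h2 S hS => hk₀ k hk θ h1 h2 S
    (fun i j l a1 a2 a3 x hx y hy z hz => NR_mono hε (hS i j l a1 a2 a3 x hx y hy z hz))⟩

private theorem mz_eps {b : B} (h : QNb b) (hb : ∀ n : ℕ, b ^ n ≠ 0) (m : ℕ) :
    ∃ εb : ℝ, 0 < εb ∧ ∀ j < m, mzA b (2 ^ (j + 1)) εb ∧ mzB b (2 ^ (j + 1) + 2 ^ (j + 1)) εb ∧
      mzC b (2 ^ (j + 1) + 2 ^ (j + 1) + 2 ^ (j + 1)) εb := by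
  apply mz_inf
  · intro j
    obtain ⟨ε₁, h1, h2⟩ := plane_excl h hb (2 ^ (j + 1))
    obtain ⟨ε₂, h3, h4⟩ := rad_excl h hb (2 ^ (j + 1) + 2 ^ (j + 1))
    obtain ⟨ε₃, h5, h6⟩ := lines7 h hb (2 ^ (j + 1) + 2 ^ (j + 1) + 2 ^ (j + 1))
    refine ⟨min ε₁ (min ε₂ ε₃), lt_min h1 (lt_min h3 h5), ?_, ?_, ?_⟩
    · exact mzA_anti (min_le_left _ _) h2
    · exact mzB_anti ((min_le_right _ _).trans (min_le_left _ _)) h4
    · exact mzC_anti ((min_le_right _ _).trans (min_le_right _ _)) h6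
  · intro j ε ε' hε ⟨h1, h2, h3⟩
    exact ⟨mzA_anti hε h1, mzB_anti hε h2, mzC_anti hε h3⟩

private theorem mz_near {b : B} {Mb : ℕ} {εb ε : ℝ} {K₁ c₀ : ℕ} (h : NearProp b Mb εb ε K₁ c₀)
    {k Nf : ℕ} (hk : 1 ≤ k) (hN : c₀ ^ 2 * 2 ^ k ≤ Nf ^ 2) {ι : Type} [Fintype ι]
    (h1 : 1 ≤ Fintype.card ι) (h2 : Fintype.card ι ≤ Mb)
    (w : ι → ℕ) (z : ι → G) (hz : ∀ i, z i ∈ fan b ε k K₁ Nf (w i)) :
    NR b (Fintype.card ι) εb (∑ i, Ew (ang Nf (w i)) (toC (z i) / K₁)) := by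
  have e := (Fintype.equivFin ι).symm
  apply h k Nf hk hN (Fintype.card ι) h1 h2 (fun i => w (e i)) (fun i => z (e i))
    (fun i => hz (e i))
  rw [e.sum_comp (fun i => Ew (ang Nf (w i)) (toC (z i) / K₁)), sub_self, norm_zero]
  positivity

private theorem mz_sum {ι : Type} (s : Finset ι) (θ : ℝ) (K₁ : ℕ) (z : ι → G) :
    Ew θ (toC (∑ i ∈ s, z i) / K₁) = ∑ i ∈ s, Ew θ (toC (z i) / K₁) := by
  classical
  induction s using Finset.induction_on with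
  | empty =>
    rw [Finset.sum_empty, Finset.sum_empty]
    have h0 : toC 0 = 0 := by
      apply Complex.ext <;> simp [toC]
    rw [h0, zero_div, Ew_zero]
  | insert a s ha ih =>
    rw [Finset.sum_insert ha, Finset.sum_insert ha, toC_add, add_div, Ew_add, ih]

private theorem mz_near1 {b : B} {Mb : ℕ} {εb ε : ℝ} {K₁ c₀ : ℕ} (h : NearProp b Mb εb ε K₁ c₀)
    {k Nf : ℕ} (hk : 1 ≤ k) (hN : c₀ ^ 2 * 2 ^ k ≤ Nf ^ 2) {j : ℕ} (hj : 2 ^ j ≤ Mb) {w : ℕ} {x : G}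
    (hx : x ∈ sums (fan b ε k K₁ Nf w) j) :
    NR b (2 ^ j) εb (Ew (ang Nf w) (toC x / K₁)) := by
  obtain ⟨xs, hxs, hsum⟩ := sums_decomp hx
  rw [← hsum, mz_sum]
  have h1 := mz_near h hk hN (ι := Fin (2 ^ j)) (by rw [Fintype.card_fin]; exact Nat.one_le_two_pow)
    (by rw [Fintype.card_fin]; exact hj) (fun _ => w) xs hxs
  rw [Fintype.card_fin] at h1
  exact h1

private theorem mz_near2 {b : B} {Mb : ℕ} {εb ε : ℝ} {K₁ c₀ : ℕ} (h : NearProp b Mb εb ε K₁ c₀)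
    {k Nf : ℕ} (hk : 1 ≤ k) (hN : c₀ ^ 2 * 2 ^ k ≤ Nf ^ 2) {j : ℕ} (hj : 2 ^ j + 2 ^ j ≤ Mb)
    {w w' : ℕ} {x x' : G}
    (hx : x ∈ sums (fan b ε k K₁ Nf w) j) (hx' : x' ∈ sums (fan b ε k K₁ Nf w') j) :
    NR b (2 ^ j + 2 ^ j) εb (Ew (ang Nf w) (toC x / K₁) + Ew (ang Nf w') (toC x' / K₁)) := by
  obtain ⟨xs, hxs, hsum⟩ := sums_decomp hx
  obtain ⟨ys, hys, hsum'⟩ := sums_decomp hx'
  rw [← hsum, ← hsum', mz_sum, mz_sum]
  have h1 := mz_near h hk hN (ι := Fin (2 ^ j) ⊕ Fin (2 ^ j))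
    (by rw [Fintype.card_sum, Fintype.card_fin]; have := Nat.one_le_two_pow (n := j); omega)
    (by rw [Fintype.card_sum, Fintype.card_fin]; exact hj)
    (Sum.elim (fun _ => w) (fun _ => w')) (Sum.elim xs ys)
    (by
      intro i
      rcases i with i | i
      · exact hxs i
      · exact hys i)
  rw [Fintype.card_sum, Fintype.card_fin, Fintype.sum_sum_type] at h1
  exact h1

private theorem mz_near3 {b : B} {Mb : ℕ} {εb ε : ℝ} {K₁ c₀ : ℕ} (h : NearProp b Mb εb ε K₁ c₀)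
    {k Nf : ℕ} (hk : 1 ≤ k) (hN : c₀ ^ 2 * 2 ^ k ≤ Nf ^ 2) {j : ℕ}
    (hj : 2 ^ j + 2 ^ j + 2 ^ j ≤ Mb) {w w' w'' : ℕ} {x x' x'' : G}
    (hx : x ∈ sums (fan b ε k K₁ Nf w) j) (hx' : x' ∈ sums (fan b ε k K₁ Nf w') j)
    (hx'' : x'' ∈ sums (fan b ε k K₁ Nf w'') j) :
    NR b (2 ^ j + 2 ^ j + 2 ^ j) εb (Ew (ang Nf w) (toC x / K₁) + Ew (ang Nf w') (toC x' / K₁) +
      Ew (ang Nf w'') (toC x'' / K₁)) := by
  obtain ⟨xs, hxs, hsum⟩ := sums_decomp hx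
  obtain ⟨ys, hys, hsum'⟩ := sums_decomp hx'
  obtain ⟨zs, hzs, hsum''⟩ := sums_decomp hx''
  rw [← hsum, ← hsum', ← hsum'', mz_sum, mz_sum, mz_sum]
  have h1 := mz_near h hk hN (ι := (Fin (2 ^ j) ⊕ Fin (2 ^ j)) ⊕ Fin (2 ^ j))
    (by
      rw [Fintype.card_sum, Fintype.card_sum, Fintype.card_fin]
      have := Nat.one_le_two_pow (n := j)
      omega)
    (by rw [Fintype.card_sum, Fintype.card_sum, Fintype.card_fin]; exact hj)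
    (Sum.elim (Sum.elim (fun _ => w) (fun _ => w')) (fun _ => w'')) (Sum.elim (Sum.elim xs ys) zs)
    (by
      intro i
      rcases i with (i | i) | i
      · exact hxs i
      · exact hys i
      · exact hzs i)
  rw [Fintype.card_sum, Fintype.card_sum, Fintype.card_fin, Fintype.sum_sum_type,
    Fintype.sum_sum_type] at h1
  exact h1

private theorem mz_bounds {b : B} {ε : ℝ} {k K₁ Nf w m j : ℕ} (hk : 1 ≤ k) (hK : 1 ≤ K₁)
    (hN1 : 1 ≤ Nf) (hN : Real.sqrt (2 ^ k) ≤ Nf) (hj : j ≤ m) {z : G}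
    (hz : z ∈ sums (fan b ε k K₁ Nf w) j) :
    0 ≤ z.1 ∧ z.1 ≤ ((7 * K₁ * 2 ^ m : ℕ) : ℤ) * 2 ^ k ∧ 0 ≤ z.2 ∧
      (z.2 : ℝ) ≤ ((7 * K₁ * 2 ^ m : ℕ) : ℝ) * Real.sqrt (2 ^ k) := by
  obtain ⟨⟨N, h1, -, h2⟩, h3, h4⟩ := fan_bounds hk hK hN1 hz
  have h5 : N ≤ 2 ^ m * 2 ^ k :=
    h2.trans (Nat.mul_le_mul_right _ (Nat.pow_le_pow_right (by norm_num) hj))
  have h6 : K₁ * N ≤ K₁ * 2 ^ m * 2 ^ k := by
    rw [mul_assoc]
    exact Nat.mul_le_mul_left _ h5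
  have h6z : z.1 ≤ (K₁ : ℤ) * 2 ^ m * 2 ^ k := by
    rw [h1]
    exact_mod_cast h6
  have h7 : 0 ≤ z.1 := by
    rw [h1]
    positivity
  refine ⟨h7, ?_, h3, ?_⟩
  · push_cast
    have h8 : (0 : ℤ) ≤ (K₁ : ℤ) * 2 ^ m * 2 ^ k := by positivity
    have h9 : (7 : ℤ) * K₁ * 2 ^ m * 2 ^ k = 7 * ((K₁ : ℤ) * 2 ^ m * 2 ^ k) := by ring
    rw [h9]
    linarith
  · have h8 : (z.1 : ℝ) ≤ (K₁ : ℝ) * 2 ^ m * 2 ^ k := by exact_mod_cast h6z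
    have h9 : (0 : ℝ) ≤ z.1 := by exact_mod_cast h7
    have h10 : (0 : ℝ) ≤ z.2 := by exact_mod_cast h3
    have hs : 0 < Real.sqrt (2 ^ k) := Real.sqrt_pos.2 (by positivity)
    have hss : Real.sqrt (2 ^ k) * Real.sqrt (2 ^ k) = 2 ^ k :=
      Real.mul_self_sqrt (by positivity)
    have hpi : 2 * Real.pi ≤ 7 := by linarith [Real.pi_lt_d2]
    have h11 : (z.2 : ℝ) * Real.sqrt (2 ^ k) ≤ z.2 * Nf := mul_le_mul_of_nonneg_left hN h10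
    have h12 : 2 * Real.pi * z.1 ≤ 7 * z.1 := mul_le_mul_of_nonneg_right hpi h9
    refine le_of_mul_le_mul_right ?_ hs
    push_cast
    calc (z.2 : ℝ) * Real.sqrt (2 ^ k) ≤ z.2 * Nf := h11
      _ ≤ 2 * Real.pi * z.1 := h4
      _ ≤ 7 * z.1 := h12
      _ ≤ 7 * ((K₁ : ℝ) * 2 ^ m * 2 ^ k) := by linarith
      _ = 7 * K₁ * 2 ^ m * Real.sqrt (2 ^ k) * Real.sqrt (2 ^ k) := by
        rw [mul_assoc (7 * (K₁ : ℝ) * 2 ^ m), hss]
        ring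

private theorem mz_exc {k Nf m : ℕ} (hk : 12 * m + 1 ≤ k) (hN : k ^ 7 ≤ Nf) (W : Finset ℕ)
    (hW : Nf ≤ k ^ 3 * W.card) (A : ℕ → ℕ → Finset ℕ)
    (hA : ∀ j < m, ∀ i ≤ 2 * k, ((A j i).card : ℝ) ≤ Nf / (k : ℝ) ^ 7 + 1) :
    ∃ W' ⊆ W, (∀ w ∈ W', ∀ j < m, ∀ i ≤ 2 * k, w ∉ A j i) ∧ Nf ≤ 2 * k ^ 3 * W'.card := by
  classical
  set X : Finset ℕ := (Finset.range m ×ˢ Finset.range (2 * k + 1)).biUnion (fun q => A q.1 q.2)
    with hXd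
  have hX : (X.card : ℝ) ≤ m * (2 * k + 1) * (Nf / (k : ℝ) ^ 7 + 1) := by
    have h1 : X.card ≤ ∑ q ∈ Finset.range m ×ˢ Finset.range (2 * k + 1), (A q.1 q.2).card :=
      Finset.card_biUnion_le
    have h2 : ∑ q ∈ Finset.range m ×ˢ Finset.range (2 * k + 1), ((A q.1 q.2).card : ℝ) ≤
        ∑ _q ∈ Finset.range m ×ˢ Finset.range (2 * k + 1), (Nf / (k : ℝ) ^ 7 + 1) := by
      apply Finset.sum_le_sum
      intro q hq
      obtain ⟨q1, q2⟩ := Finset.mem_product.1 hq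
      have q3 := Finset.mem_range.1 q2
      exact hA q.1 (Finset.mem_range.1 q1) q.2 (by omega)
    rw [Finset.sum_const, Finset.card_product, Finset.card_range, Finset.card_range,
      nsmul_eq_mul] at h2
    have h3 : (X.card : ℝ) ≤ ∑ q ∈ Finset.range m ×ˢ Finset.range (2 * k + 1),
        ((A q.1 q.2).card : ℝ) := by exact_mod_cast h1
    push_cast at h2
    exact h3.trans h2
  refine ⟨W \ X, Finset.sdiff_subset, ?_, ?_⟩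
  · intro w hw j hj i hi hwA
    refine (Finset.mem_sdiff.1 hw).2 (Finset.mem_biUnion.2 ⟨(j, i), Finset.mem_product.2
      ⟨Finset.mem_range.2 hj, Finset.mem_range.2 ?_⟩, hwA⟩)
    change i < 2 * k + 1
    omega
  · have h3 : W.card ≤ (W \ X).card + X.card := by
      have h4 := Finset.card_le_card (show W ⊆ (W \ X) ∪ X by
        intro x hx
        by_cases hxX : x ∈ X
        · exact Finset.mem_union_right _ hxX
        · exact Finset.mem_union_left _ (Finset.mem_sdiff.2 ⟨hx, hxX⟩))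
      exact h4.trans (Finset.card_union_le _ _)
    have hk1 : (1 : ℝ) ≤ k := by
      have : 1 ≤ k := by omega
      exact_mod_cast this
    have hm1 : (12 : ℝ) * m + 1 ≤ k := by exact_mod_cast hk
    have hN1 : (k : ℝ) ^ 7 ≤ Nf := by exact_mod_cast hN
    have hW1 : (Nf : ℝ) ≤ k ^ 3 * W.card := by exact_mod_cast hW
    have h31 : (W.card : ℝ) ≤ (W \ X).card + X.card := by exact_mod_cast h3
    have hm0 : (0 : ℝ) ≤ m := Nat.cast_nonneg _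
    have hk7 : (0 : ℝ) < (k : ℝ) ^ 7 := by positivity
    have hk3 : (0 : ℝ) < (k : ℝ) ^ 3 := by positivity
    have hd : 1 ≤ (Nf : ℝ) / (k : ℝ) ^ 7 := by
      rw [le_div_iff₀ hk7, one_mul]
      exact hN1
    have hX2 : (k : ℝ) ^ 3 * X.card ≤ Nf / 2 := by
      have e1 : (X.card : ℝ) ≤ (m * (3 * k)) * (2 * (Nf / (k : ℝ) ^ 7)) := by
        refine hX.trans ?_
        apply mul_le_mul
        · apply mul_le_mul_of_nonneg_left _ hm0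
          linarith
        · linarith
        · positivity
        · positivity
      calc (k : ℝ) ^ 3 * X.card ≤ (k : ℝ) ^ 3 * ((m * (3 * k)) * (2 * (Nf / (k : ℝ) ^ 7))) :=
            mul_le_mul_of_nonneg_left e1 hk3.le
        _ = 6 * m * (Nf / (k : ℝ) ^ 3) := by
          field_simp
          ring
        _ ≤ (k : ℝ) ^ 3 / 2 * (Nf / (k : ℝ) ^ 3) := by
          apply mul_le_mul_of_nonneg_right _ (by positivity)
          have e2 : (k : ℝ) ≤ (k : ℝ) ^ 3 := le_self_pow₀ hk1 (by norm_num)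
          linarith
        _ = Nf / 2 := by
          field_simp
    have hfin : (Nf : ℝ) ≤ 2 * k ^ 3 * (W \ X).card := by
      have e1 : (k : ℝ) ^ 3 * W.card ≤ k ^ 3 * ((W \ X).card + X.card) :=
        mul_le_mul_of_nonneg_left h31 hk3.le
      rw [mul_add] at e1
      linarith
    exact_mod_cast hfin

private theorem mz_pigeon {k m : ℕ} (hm : 1 ≤ m) (W : Finset ℕ) (R : ℕ → ℕ → ℕ → Prop)
    (h : ∀ w ∈ W, ∃ j < m, ∃ a ≤ k, R w j a) :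
    ∃ j < m, ∃ a ≤ k, ∃ W'' ⊆ W, (∀ w ∈ W'', R w j a) ∧ W.card ≤ m * (k + 1) * W''.card := by
  classical
  set I : Finset (ℕ × ℕ) := Finset.range m ×ˢ Finset.range (k + 1) with hI
  have hIne : I.Nonempty := ⟨(0, 0), Finset.mem_product.2 ⟨Finset.mem_range.2 (by omega),
    Finset.mem_range.2 (by omega)⟩⟩
  obtain ⟨q, hq, hmax⟩ := Finset.exists_max_image I
    (fun q => (W.filter (fun w => R w q.1 q.2)).card) hIne
  obtain ⟨q1, q2⟩ := Finset.mem_product.1 hq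
  have q3 := Finset.mem_range.1 q2
  refine ⟨q.1, Finset.mem_range.1 q1, q.2, by omega, W.filter (fun w => R w q.1 q.2),
    Finset.filter_subset _ _, fun w hw => (Finset.mem_filter.1 hw).2, ?_⟩
  have h1 : W ⊆ I.biUnion (fun q => W.filter (fun w => R w q.1 q.2)) := by
    intro w hw
    obtain ⟨j, hj, a, ha, hR⟩ := h w hw
    exact Finset.mem_biUnion.2 ⟨(j, a), Finset.mem_product.2 ⟨Finset.mem_range.2 hj,
      Finset.mem_range.2 (Nat.lt_succ_of_le ha)⟩, Finset.mem_filter.2 ⟨hw, hR⟩⟩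
  have h2 := (Finset.card_le_card h1).trans Finset.card_biUnion_le
  have h3 := Finset.sum_le_card_nsmul I (fun q => (W.filter (fun w => R w q.1 q.2)).card) _ hmax
  have h4 : I.card = m * (k + 1) := by
    rw [hI, Finset.card_product, Finset.card_range, Finset.card_range]
  rw [h4, smul_eq_mul] at h3
  exact h2.trans h3

private theorem mz_num (m c₀ : ℕ) : ∃ k₀ : ℕ, ∀ k : ℕ, k₀ ≤ k → 12 * m + 1 ≤ k ∧
    7 * (c₀ * 2 ^ ((k + 1) / 2)) ≤ 2 ^ k ∧ k ^ 200 ≤ 2 ^ (k / 2) ∧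
    11 * (k : ℝ) ^ (1 - 1 / 200 : ℝ) + 42 ≤ (k : ℝ) ^ (1 - 1 / 400 : ℝ) := by
  have e1 : ∀ᶠ n : ℕ in Filter.atTop, (n : ℝ) ^ 200 / 2 ^ n < 1 / 3 ^ 200 := by
    have h1 := tendsto_pow_const_div_const_pow_of_one_lt 200 (show (1 : ℝ) < 2 by norm_num)
    exact h1.eventually (gt_mem_nhds (by positivity))
  obtain ⟨n₁, hn₁⟩ := Filter.eventually_atTop.1 e1
  have e2 : ∀ᶠ x : ℝ in Filter.atTop, (53 : ℝ) ≤ x ^ (1 / 400 : ℝ) :=
    (tendsto_rpow_atTop (show (0 : ℝ) < 1 / 400 by norm_num)).eventually_ge_atTop _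
  obtain ⟨k₂, hk₂⟩ := Filter.eventually_atTop.1
    ((tendsto_natCast_atTop_atTop (R := ℝ)).eventually e2)
  refine ⟨12 * m + 14 * c₀ + 2 * n₁ + k₂ + 10, ?_⟩
  intro k hk
  refine ⟨by omega, ?_, ?_, ?_⟩
  · obtain ⟨d, hd⟩ : ∃ d, k = (k + 1) / 2 + d := ⟨k - (k + 1) / 2, by omega⟩
    have h1 : 7 * c₀ ≤ 2 ^ d := by
      have h2 : 7 * c₀ ≤ d := by omega
      exact h2.trans Nat.lt_two_pow_self.le
    calc 7 * (c₀ * 2 ^ ((k + 1) / 2)) = 2 ^ ((k + 1) / 2) * (7 * c₀) := by ring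
      _ ≤ 2 ^ ((k + 1) / 2) * 2 ^ d := Nat.mul_le_mul_left _ h1
      _ = 2 ^ k := by rw [← pow_add, ← hd]
  · have h1 := hn₁ (k / 2) (by omega)
    rw [div_lt_div_iff₀ (by positivity) (by positivity), one_mul, ← mul_pow] at h1
    have h2 : (k / 2 * 3) ^ 200 < 2 ^ (k / 2) := by exact_mod_cast h1
    have h3 : k ≤ k / 2 * 3 := by omega
    exact (Nat.pow_le_pow_left h3 200).trans h2.le
  · have h1 := hk₂ k (by omega)
    have hk1 : (1 : ℝ) ≤ k := by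
      have : 1 ≤ k := by omega
      exact_mod_cast this
    have hk0 : (0 : ℝ) < k := by linarith
    have h2 : (k : ℝ) ^ (1 - 1 / 400 : ℝ) = (k : ℝ) ^ (1 - 1 / 200 : ℝ) * (k : ℝ) ^ (1 / 400 : ℝ) := by
      rw [← Real.rpow_add hk0]
      norm_num
    have h3 : (1 : ℝ) ≤ (k : ℝ) ^ (1 - 1 / 200 : ℝ) := Real.one_le_rpow hk1 (by norm_num)
    rw [h2]
    nlinarith

private theorem mz_angdist {Nf H b₀ w w' : ℕ} (hH : 1 ≤ H) (hNf : Nf = 7 * H) (h1 : b₀ * H ≤ w)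
    (h2 : w < (b₀ + 1) * H) (h3 : b₀ * H ≤ w') (h4 : w' < (b₀ + 1) * H) :
    |ang Nf w - ang Nf w'| ≤ 1 := by
  have hNr : (Nf : ℝ) = 7 * H := by rw [hNf]; push_cast; ring
  have hHr : (1 : ℝ) ≤ H := by exact_mod_cast hH
  have g1 : (b₀ : ℝ) * H ≤ w := by exact_mod_cast h1
  have g2 : (w : ℝ) ≤ (b₀ + 1) * H := by exact_mod_cast h2.le
  have g3 : (b₀ : ℝ) * H ≤ w' := by exact_mod_cast h3
  have g4 : (w' : ℝ) ≤ (b₀ + 1) * H := by exact_mod_cast h4.le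
  have hpi := Real.pi_lt_d2
  have hpi0 := Real.pi_pos
  have h5 : |(w : ℝ) - w'| ≤ H := by
    rw [abs_le]
    constructor <;> linarith
  have h6 : ang Nf w - ang Nf w' = 2 * Real.pi / Nf * (w - w') := by
    unfold ang
    ring
  rw [h6, abs_mul, abs_of_nonneg (by positivity), hNr]
  calc 2 * Real.pi / (7 * H) * |(w : ℝ) - w'| ≤ 2 * Real.pi / (7 * H) * H :=
        mul_le_mul_of_nonneg_left h5 (by positivity)
    _ = 2 * Real.pi / 7 := by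
      field_simp
    _ ≤ 1 := by linarith

theorem main_prop {b : B} (h : QNb b) (hb : ∀ n : ℕ, b ^ n ≠ 0) :
    ∃ ε : ℝ, 0 < ε ∧ ∃ k₀ : ℕ, ∀ k : ℕ, k₀ ≤ k →
      volume.real ((⋃ n ∈ Finset.Ioc (2 ^ (k - 1)) (2 ^ k), Vn b ε n) ∩
        Set.Ioc 0 (2 * Real.pi)) < 1 / (k : ℝ) ^ 2 := by
  classical
  obtain ⟨m, hm1, hone⟩ := one_fan
  obtain ⟨εb, hεb, hP⟩ := mz_eps h hb m
  obtain ⟨ε, hε, K₁, hK₁, c₀, hc₀, C, hnear, hcount⟩ := sums_count h hb m hεb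
  obtain ⟨kA, hkA⟩ := mz_all m (fun j hj => (hP j hj).1 K₁ hK₁)
  obtain ⟨kB, hkB⟩ := mz_all m (fun j hj => (hP j hj).2.1 K₁ hK₁)
  obtain ⟨kC, hkC⟩ := mz_all m (fun j hj => (hP j hj).2.2 K₁ hK₁)
  obtain ⟨kG, hkG⟩ := good_fans b ε K₁ c₀ m hK₁ hc₀ C
  obtain ⟨kO, hkO⟩ := hone (7 * K₁ * 2 ^ m)
  obtain ⟨kS, hkS⟩ := seven
  obtain ⟨kN, hkN⟩ := mz_num m c₀
  refine ⟨ε, hε, kA + kB + kC + kG + kO + kS + kN, ?_⟩
  intro k hk
  by_contra hcon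
  push Not at hcon
  obtain ⟨n1, n2, n3, n4⟩ := hkN k (by omega)
  have hk1 : 1 ≤ k := by omega
  have hk1r : (1 : ℝ) ≤ k := by exact_mod_cast hk1
  set H : ℕ := c₀ * 2 ^ ((k + 1) / 2) with hH
  set Nf : ℕ := 7 * H with hNf
  have hH1 : 1 ≤ H := Nat.mul_pos hc₀ (by positivity)
  have hNf1 : 1 ≤ Nf := by omega
  have hH2 : 2 ^ ((k + 1) / 2) ≤ H := Nat.le_mul_of_pos_left _ hc₀
  have hNfsq : c₀ ^ 2 * 2 ^ k ≤ Nf ^ 2 := by
    calc c₀ ^ 2 * 2 ^ k ≤ c₀ ^ 2 * 2 ^ ((k + 1) / 2 * 2) :=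
          Nat.mul_le_mul_left _ (Nat.pow_le_pow_right (by norm_num) (by omega))
      _ = H ^ 2 := by rw [hH, mul_pow, pow_mul]
      _ ≤ Nf ^ 2 := Nat.pow_le_pow_left (by omega) 2
  have hNf200 : k ^ 200 ≤ Nf := by
    calc k ^ 200 ≤ 2 ^ (k / 2) := n3
      _ ≤ 2 ^ ((k + 1) / 2) := Nat.pow_le_pow_right (by norm_num) (by omega)
      _ ≤ H := hH2
      _ ≤ Nf := by omega
  have hNf7 : k ^ 7 ≤ Nf := (Nat.pow_le_pow_right hk1 (by norm_num)).trans hNf200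
  have hsqrt : Real.sqrt (2 ^ k) ≤ Nf := by
    apply Real.sqrt_le_iff.2
    refine ⟨Nat.cast_nonneg _, ?_⟩
    have h1 : 2 ^ k ≤ Nf ^ 2 := (Nat.le_mul_of_pos_left _ (by positivity)).trans hNfsq
    exact_mod_cast h1
  obtain ⟨b₀, hb₀, W, hWr, hWc, hWg⟩ := hkG k (by omega) hcon
    (fun j hj => hcount k Nf hk1 hNfsq n2 j hj)
  have hpow : ∀ j < m, 2 ^ (j + 1) ≤ 2 ^ m := fun j hj =>
    Nat.pow_le_pow_right (by norm_num) (by omega)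
  have hWNf : ∀ w ∈ W, w < Nf := by
    intro w hw
    have h1 : w < (b₀ + 1) * H := (hWr w hw).2
    have h2 : (b₀ + 1) * H ≤ 7 * H := Nat.mul_le_mul_right _ (by omega)
    exact lt_of_lt_of_le h1 h2
  -- the exceptional fans
  obtain ⟨Λ, hΛ⟩ : ∃ Λ, Λ = Nat.sqrt k := ⟨_, rfl⟩
  have hΛk : Λ ≤ k := by rw [hΛ]; exact Nat.sqrt_le_self k
  have hΛ1 : 1 ≤ Λ := by
    rw [hΛ]
    exact Nat.sqrt_pos.2 hk1
  set Act : ℕ → ℕ → Finset ℕ := fun j i => W.filter (fun w =>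
    k + (7 * K₁ * 2 ^ m) ≤ 2 * (i * Λ) ∧ i * Λ ≤ 2 * k ∧
      ∃ q : ℂ, LineDense (sums (fan b ε k K₁ Nf w) (j + 1)) q 1 (2 ^ ((i + 1) * Λ) / (k : ℝ) ^ 11)
        (2 ^ ((i + 1) * Λ) / k)) with hAct
  have hActc : ∀ j < m, ∀ i ≤ 2 * k, ((Act j i).card : ℝ) ≤ Nf / (k : ℝ) ^ 7 + 1 := by
    intro j hj i _
    apply act_card hk1 hNf1
    intro w hw w' hw'
    obtain ⟨hwW, c1, c2, q, hq⟩ := Finset.mem_filter.1 hw
    obtain ⟨hwW', -, -, q', hq'⟩ := Finset.mem_filter.1 hw'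
    by_contra hge
    push Not at hge
    have hle1 : |ang Nf w - ang Nf w'| ≤ 1 :=
      mz_angdist hH1 hNf (hWr w hwW).1 (hWr w hwW).2 (hWr w' hwW').1 (hWr w' hwW').2
    have hgL : (k : ℝ) ^ 10 * (2 ^ ((i + 1) * Λ) / (k : ℝ) ^ 11) = 2 ^ ((i + 1) * Λ) / k := by
      field_simp
    have hk11 : (k : ℝ) ^ 11 ≤ 2 ^ (i * Λ) := by
      have h1 : k ^ 11 ≤ 2 ^ (i * Λ) := by
        calc k ^ 11 ≤ k ^ 200 := Nat.pow_le_pow_right hk1 (by norm_num)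
          _ ≤ 2 ^ (k / 2) := n3
          _ ≤ 2 ^ (i * Λ) := Nat.pow_le_pow_right (by norm_num) (by omega)
      exact_mod_cast h1
    have hg1 : (2 : ℝ) ^ Nat.sqrt k ≤ 2 ^ ((i + 1) * Λ) / (k : ℝ) ^ 11 := by
      rw [le_div_iff₀ (by positivity), ← hΛ, add_mul, one_mul, pow_add, mul_comm ((2 : ℝ) ^ (i * Λ))]
      exact mul_le_mul_of_nonneg_left hk11 (by positivity)
    have hg2 : (2 : ℝ) ^ ((i + 1) * Λ) / (k : ℝ) ^ 11 ≤ 2 ^ (3 * k) := by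
      refine (div_le_self (by positivity) (one_le_pow₀ hk1r)).trans ?_
      apply pow_le_pow_right₀ (by norm_num)
      rw [add_mul, one_mul]
      omega
    refine hkB k (by omega) j hj (ang Nf w) (ang Nf w') hge hle1
      (sums (fan b ε k K₁ Nf w) (j + 1)) (sums (fan b ε k K₁ Nf w') (j + 1)) ?_ q q'
      (2 ^ ((i + 1) * Λ) / (k : ℝ) ^ 11) hg1 hg2 ?_ ?_
    · intro z hz z' hz'
      exact mz_near2 hnear hk1 hNfsq (by have := hpow j hj; omega) hz hz'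
    · rw [hgL]
      exact hq
    · rw [hgL]
      exact hq'
  obtain ⟨W', hW'W, hW'no, hW'c⟩ := mz_exc n1 hNf7 W hWc Act hActc
  -- one fan
  have hof : ∀ w ∈ W', ∃ j < m, ∃ a ≤ k, (k : ℝ) ^ (1 - 1 / 400 : ℝ) ≤ a ∧ 24 * a ≤ k ∧
      ∃ q β : ℂ, ‖β‖ = 1 ∧ LineDense (sums (fan b ε k K₁ Nf w) (j + 1)) q β
        (2 ^ (a + ⌊(k : ℝ) ^ (1 - 1 / 200 : ℝ)⌋₊ + 2)) (2 ^ (12 * a) / 2 ^ 20) := by
    intro w hw
    have hwW := hW'W hw
    obtain ⟨g1, g2⟩ := hWg w hwW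
    obtain ⟨j, hj, a, ha1, ha2, hrest⟩ := hkO k (by omega) (fan b ε k K₁ Nf w)
      (fun j hj z hz => mz_bounds hk1 hK₁ hNf1 hsqrt hj hz) g1 g2
      (fun j hj q x hx1 hx2 => hkA k (by omega) j hj (ang Nf w) _
        (fun z hz => mz_near1 hnear hk1 hNfsq (by have := hpow j hj; omega) hz) q x hx1 hx2)
      (by
        intro j hj i hi1 hi2 q hLD
        rw [← hΛ] at hi1 hi2 hLD
        have hik : i ≤ 2 * k := (Nat.le_mul_of_pos_right i hΛ1).trans hi2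
        exact hW'no w hw j hj i hik (Finset.mem_filter.2 ⟨hwW, hi1, hi2, q, hLD⟩))
    exact ⟨j, hj, a, by omega, ha1, ha2, hrest⟩
  obtain ⟨j, hj, a, hak, W'', hW''W', hW''R, hW''c⟩ := mz_pigeon hm1 W'
    (fun w j a => (k : ℝ) ^ (1 - 1 / 400 : ℝ) ≤ a ∧ 24 * a ≤ k ∧
      ∃ q β : ℂ, ‖β‖ = 1 ∧ LineDense (sums (fan b ε k K₁ Nf w) (j + 1)) q β
        (2 ^ (a + ⌊(k : ℝ) ^ (1 - 1 / 200 : ℝ)⌋₊ + 2)) (2 ^ (12 * a) / 2 ^ 20)) hof
  have hNfW : Nf ≤ k ^ 5 * W''.card := by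
    have h1 : 2 * (m * (k + 1)) ≤ k ^ 2 := by
      have h2 : 2 * m * (k + 1) ≤ 2 * m * (2 * k) := Nat.mul_le_mul_left _ (by omega)
      have h3 : 4 * m * k ≤ k * k := Nat.mul_le_mul_right _ (by omega)
      calc 2 * (m * (k + 1)) = 2 * m * (k + 1) := by ring
        _ ≤ 2 * m * (2 * k) := h2
        _ = 4 * m * k := by ring
        _ ≤ k * k := h3
        _ = k ^ 2 := by ring
    calc Nf ≤ 2 * k ^ 3 * W'.card := hW'c
      _ ≤ 2 * k ^ 3 * (m * (k + 1) * W''.card) := Nat.mul_le_mul_left _ hW''c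
      _ = k ^ 3 * (2 * (m * (k + 1))) * W''.card := by ring
      _ ≤ k ^ 3 * k ^ 2 * W''.card :=
        Nat.mul_le_mul_right _ (Nat.mul_le_mul_left _ h1)
      _ = k ^ 5 * W''.card := by ring
  obtain ⟨w, hwW'', hwclose, hwsep⟩ := hkS k (by omega) Nf hNf200 W''
    (fun w hw => hWNf w (hW'W (hW''W' hw))) hNfW
  have hR := fun i => hW''R (w i) (hwW'' i)
  choose ha1 ha2 q β hβ hLD using hR
  refine hkC k (by omega) j hj (fun i => ang Nf (w i)) hwclose hwsep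
    (fun i => sums (fan b ε k K₁ Nf (w i)) (j + 1)) ?_ q β
    (2 ^ (a + ⌊(k : ℝ) ^ (1 - 1 / 200 : ℝ)⌋₊ + 2)) (2 ^ (12 * a) / 2 ^ 20) hβ ?_ ?_ hLD
  · intro i i' i'' _ _ _ x hx y hy z hz
    exact mz_near3 hnear hk1 hNfsq (by have := hpow j hj; omega) hx hy hz
  · have h1 : (Nat.sqrt k : ℝ) ≤ a := by
      have h2 : (Nat.sqrt k : ℝ) ≤ (k : ℝ) ^ (1 / 2 : ℝ) := by
        rw [← Real.sqrt_eq_rpow]
        exact Real.nat_sqrt_le_real_sqrt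
      have h3 : (k : ℝ) ^ (1 / 2 : ℝ) ≤ (k : ℝ) ^ (1 - 1 / 400 : ℝ) :=
        Real.rpow_le_rpow_of_exponent_le hk1r (by norm_num)
      exact (h2.trans h3).trans (ha1 0)
    have h2 : Nat.sqrt k ≤ a := by exact_mod_cast h1
    exact pow_le_pow_right₀ (by norm_num) (by omega)
  · obtain ⟨l, hl⟩ : ∃ l, l = ⌊(k : ℝ) ^ (1 - 1 / 200 : ℝ)⌋₊ := ⟨_, rfl⟩
    have h1 : (l : ℝ) ≤ (k : ℝ) ^ (1 - 1 / 200 : ℝ) := by
      rw [hl]
      exact Nat.floor_le (by positivity)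
    have h2 : ((11 * l + 42 : ℕ) : ℝ) ≤ a := by
      push_cast
      have := ha1 0
      linarith
    have h3 : 11 * l + 42 ≤ a := by exact_mod_cast h2
    rw [← hl, le_div_iff₀ (by positivity), ← pow_mul, ← pow_add]
    apply pow_le_pow_right₀ (by norm_num)
    omega

end Pool.Agent.Work.MP_0d53be_an.Full
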