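import Pool.Agent.Work.MP_0d53be_an.Full.Z.Seq
import Pool.Agent.Work.MP_0d53be_an.Full.H.RunA
import Pool.Agent.Work.MP_0d53be_an.Full.H.RunB
import Pool.Agent.Work.MP_0d53be_an.Full.H.RunC
import Pool.Agent.Work.MP_0d53be_an.Full.H.Acc
import Pool.Agent.Work.MP_0d53be_an.Full.H.Range

/-!
# Z/OneFan: a rich flat set with small sum sets has a long line at a low scale

There is `m ≥ 1` such that for all `K : ℕ` there is `k₀` such that for `k ≥ k₀` and every finite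
`F ⊆ G` with (`Λ = Nat.sqrt k`)
(a) `0 ≤ z.1 ≤ K 2^k`, `0 ≤ z.2 ≤ K √(2^k)` for `z ∈ sums F j`, `j ≤ m`;
(b) `√(2^k) ≤ k³ card F` and `card (sums F j) ≤ k³ √(2^k)` for `j ≤ m`;
(c) for `j < m`: `sums F (j+1)` is not `PlaneDense` at any `q`, scale `x ∈ [2^Λ, 2^(2k)]`, `J = k^11`;
(d) for `j < m` and `i` with `k + K ≤ 2iΛ`, `iΛ ≤ 2k`: `sums F (j+1)` is not `LineDense` in the
direction `1` with mesh `2^((i+1)Λ)/k^11` and length `2^((i+1)Λ)/k`
there are `j < m` and `a` with `k^(1-1/400) ≤ a`, `24a ≤ k`, and `q`, `β`, `‖β‖ = 1` such that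
`sums F (j+1)` is `LineDense` at `q` in the direction `β` with mesh `2^(a+ℓ+2)`,
`ℓ = ⌊k^(1-1/200)⌋`, and length `2^(12a)/2^20`.

Proof. `runC` gives `η₁` and `C`. `range_exists` with `η₁` and `K = 7` gives `m`. Let `K` be given, `k`
large (depending on `m, K, C`). `F` is nonempty by (b). `P j = pseq F j`, `S j = sums F j`, `Prb`
by `pseq_prb`. For `t ≥ 2k - Λ` (in fact for every `t` with `K 2^k < 2^t`) all `S j`, `j ≤ m`, lie in
`box t`. `log √(2^k) = (k/2) log 2`.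
(1) `hh (P 0) 0 = log card F ≥ (k/2) log 2 - 3 log k`, `hh (P j) 0 ≤ (k/2) log 2 + 3 log k` for `j ≤ m`,
and by `pseq_mono` (`t = 2k`): `hh (P (j+1)) 0 ≥ hh (P j) 0 - 4`, so
`hh (P j) 0 ≥ (k/2) log 2 - 3 log k - 4m`. `drop (S j) (P j) 0 t ≤ hh (P (j+1)) 0 - hh (P j) 0 + 4
≤ 6 log k + 4m + 4 ≤ 7 log k`... for both `t = 2k` and `t = TΛ` below.
(2) `∑_{j<m} drop (S j) (P j) 0 (2k) ≤ hh (P m) 0 - hh (P 0) 0 + 4m ≤ 6 log k + 4m`. `range_exists`:
`j < m`, `a` with `k^(1-1/400) ≤ a`, `24a ≤ k`, `drop (S j) (P j) a (12a) ≤ η₁`. Fix this `j`; `A = S j`,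
`p = P j`; `A + A = sums F (j+1)`.
(3) Accounting for `p` with the constant `K' = max (7, K + 2 log₂ K + 10)`-like (any constant
depending on `K, m` only): `T = 2k / Λ` (natural division), `TΛ ≤ 2k`, `TΛ > 2k - Λ ≥ k/2 + K'`,
`hh p (TΛ) ≤ 4` (`pseq_top`), `hh p 0 ≥ (k/2) log 2 - K' log k`, `drop A p 0 (TΛ) ≤ K' log k`.
(A) for `1 ≤ i < T`, `2(i+1)Λ ≤ k`: `runA` with `s = iΛ ≥ Λ`; its hypothesis is (c), since
`2^Λ ≤ 2^s ≤ w ≤ 2^(s+Λ) ≤ 2^(2k)`.
(B) for `i < T`, `k/2 + K' ≤ iΛ`: `runB` with `s = iΛ`: for `x, y ∈ A`: `|x.2 - y.2| ≤ K √(2^k) ≤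
2^(k/2 + K') ≤ 2^s` (`K ≤ 2^K'`), and (d) (`k + K ≤ 2 i Λ`, `iΛ ≤ 2k`).
`accounting` gives for `ℓ = ⌊k^(1-1/200)⌋` (`2(a+ℓ) ≤ k` since `24 a ≤ k` and `ℓ` is small)
`hh p a - hh p (a+ℓ) ≥ ℓ log 2 - k^(1-1/180) ≥ (ℓ/2) log 2` for large `k`.
(4) `runC` with `s = a`, `t = 12a`: `a + ℓ + C ≤ 12a` and `C (log₂ (12a) + 1) ≤ ℓ` for large `k`. It
gives `q`, `β` and `LineDense (A + A) q β (2^(a+ℓ+2)) (2^(12a)/2^20)`.
-/

set_option autoImplicit false

namespace Pool.Agent.Work.MP_0d53be_an.Full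

open scoped Pointwise

open Filter

private theorem asy_pow {a b : ℝ} (h : a < b) (C : ℝ) :
    ∀ᶠ k : ℕ in atTop, C * (k : ℝ) ^ a ≤ (k : ℝ) ^ b := by
  have h1 : Tendsto (fun k : ℕ => (k : ℝ) ^ (b - a)) atTop atTop :=
    (tendsto_rpow_atTop (sub_pos.2 h)).comp tendsto_natCast_atTop_atTop
  filter_upwards [h1.eventually (eventually_ge_atTop C), eventually_gt_atTop 0] with k hk hk0
  have hk' : (0 : ℝ) < k := Nat.cast_pos.2 hk0
  have e : (k : ℝ) ^ b = (k : ℝ) ^ (b - a) * (k : ℝ) ^ a := by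
    rw [← Real.rpow_add hk']
    ring_nf
  rw [e]
  exact mul_le_mul_of_nonneg_right hk (Real.rpow_nonneg hk'.le _)

private theorem asy_log {b : ℝ} (h : 0 < b) (C D : ℝ) :
    ∀ᶠ k : ℕ in atTop, C * Real.log k + D ≤ (k : ℝ) ^ b := by
  have h1 : ∀ᶠ x : ℝ in atTop, |Real.log x| ≤ 1 / (2 * (|C| + 1)) * |x ^ b| := by
    have := (isLittleO_log_rpow_atTop h).def (c := 1 / (2 * (|C| + 1))) (by positivity)
    simpa [Real.norm_eq_abs] using this
  have h2 := tendsto_natCast_atTop_atTop (R := ℝ) |>.eventually h1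
  have h3 : Tendsto (fun k : ℕ => (k : ℝ) ^ b) atTop atTop :=
    (tendsto_rpow_atTop h).comp tendsto_natCast_atTop_atTop
  filter_upwards [h2, h3.eventually (eventually_ge_atTop (2 * |D|))] with k hk hk2
  have hb : 0 ≤ (k : ℝ) ^ b := Real.rpow_nonneg (Nat.cast_nonneg _) _
  rw [abs_of_nonneg hb] at hk
  have h4 : C * Real.log k ≤ (k : ℝ) ^ b / 2 := by
    calc C * Real.log k ≤ |C * Real.log k| := le_abs_self _
      _ = |C| * |Real.log k| := abs_mul _ _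
      _ ≤ |C| * (1 / (2 * (|C| + 1)) * (k : ℝ) ^ b) := by gcongr
      _ = (|C| / (|C| + 1)) * ((k : ℝ) ^ b / 2) := by field_simp
      _ ≤ 1 * ((k : ℝ) ^ b / 2) := by
          gcongr
          rw [div_le_one (by positivity)]
          linarith
      _ = (k : ℝ) ^ b / 2 := one_mul _
  have h5 : D ≤ (k : ℝ) ^ b / 2 := by
    have := le_abs_self D
    linarith
  linarith

/-- The asymptotic facts. -/
private theorem asy (m K C : ℕ) : ∀ᶠ k : ℕ in atTop,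
    4 * (m : ℝ) + 4 ≤ Real.log k ∧ 16 ≤ k ∧ 2 * K + 40 ≤ k ∧
    2 * ⌊(k : ℝ) ^ (1 - 1 / 200 : ℝ)⌋₊ ≤ k / 2 ∧
    (k : ℝ) ^ (1 - 1 / 180 : ℝ) ≤ (⌊(k : ℝ) ^ (1 - 1 / 200 : ℝ)⌋₊ : ℝ) / 2 * Real.log 2 ∧
    (⌊(k : ℝ) ^ (1 - 1 / 200 : ℝ)⌋₊ : ℝ) + C ≤ (k : ℝ) ^ (1 - 1 / 400 : ℝ) ∧
    C * (Nat.log 2 k + 1) ≤ ⌊(k : ℝ) ^ (1 - 1 / 200 : ℝ)⌋₊ := by
  have hlog : Tendsto (fun k : ℕ => Real.log k) atTop atTop :=
    Real.tendsto_log_atTop.comp tendsto_natCast_atTop_atTop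
  filter_upwards [hlog.eventually (eventually_ge_atTop (4 * (m : ℝ) + 4)),
    eventually_ge_atTop 16, eventually_ge_atTop (2 * K + 40),
    asy_pow (show (1 - 1 / 200 : ℝ) < 1 by norm_num) 8,
    asy_pow (show (1 - 1 / 180 : ℝ) < (1 - 1 / 200 : ℝ) by norm_num) 8,
    asy_pow (show (1 - 1 / 200 : ℝ) < (1 - 1 / 400 : ℝ) by norm_num) 2,
    asy_pow (show (0 : ℝ) < (1 - 1 / 200 : ℝ) by norm_num) (C + 8),
    asy_log (show (0 : ℝ) < (1 - 1 / 200 : ℝ) by norm_num) (2 * C) (C + 1)]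
    with k h1 h2 h3 h4 h5 h6 h7 h8
  rw [Real.rpow_one] at h4
  rw [Real.rpow_zero, mul_one] at h7
  have hC0 : (0 : ℝ) ≤ C := Nat.cast_nonneg _
  set y : ℝ := (k : ℝ) ^ (1 - 1 / 200 : ℝ) with hy
  have hy0 : 0 ≤ y := Real.rpow_nonneg (Nat.cast_nonneg _) _
  have hf1 : (⌊y⌋₊ : ℝ) ≤ y := Nat.floor_le hy0
  have hf2 : y < (⌊y⌋₊ : ℝ) + 1 := Nat.lt_floor_add_one y
  have hl2 : (0.6931471803 : ℝ) < Real.log 2 := Real.log_two_gt_d9
  refine ⟨h1, h2, h3, ?_, ?_, ?_, ?_⟩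
  · have h9 : (4 : ℝ) * (⌊y⌋₊ : ℝ) ≤ k := by linarith
    have h10 : 4 * ⌊y⌋₊ ≤ k := by exact_mod_cast h9
    omega
  · have h9 : (⌊y⌋₊ : ℝ) ≥ 7 / 8 * y := by linarith
    nlinarith
  · linarith
  · have h9 : (C : ℝ) * (Nat.log 2 k + 1) + 1 ≤ y := by
      have h10 : (Nat.log 2 k : ℝ) * Real.log 2 ≤ Real.log k := by
        have hk0 : k ≠ 0 := by omega
        have h11 : (2 : ℝ) ^ (Nat.log 2 k) ≤ k := by
          exact_mod_cast Nat.pow_log_le_self 2 hk0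
        have h12 := Real.log_le_log (by positivity) h11
        rwa [Real.log_pow] at h12
      have h13 : (Nat.log 2 k : ℝ) ≤ 2 * Real.log k := by
        have h14 : (0 : ℝ) ≤ Nat.log 2 k := Nat.cast_nonneg _
        nlinarith
      nlinarith
    have h10 : ((C * (Nat.log 2 k + 1) : ℕ) : ℝ) < (⌊y⌋₊ : ℝ) + 1 := by
      push_cast
      linarith
    have h11 : C * (Nat.log 2 k + 1) < ⌊y⌋₊ + 1 := by exact_mod_cast h10
    omega

theorem one_fan : ∃ m : ℕ, 1 ≤ m ∧ ∀ K : ℕ, ∃ k₀ : ℕ, ∀ k : ℕ, k₀ ≤ k → ∀ F : Finset G,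
    (∀ j ≤ m, ∀ z ∈ sums F j, 0 ≤ z.1 ∧ z.1 ≤ K * 2 ^ k ∧ 0 ≤ z.2 ∧
      (z.2 : ℝ) ≤ K * Real.sqrt (2 ^ k)) →
    Real.sqrt (2 ^ k) ≤ (k : ℝ) ^ 3 * F.card →
    (∀ j ≤ m, ((sums F j).card : ℝ) ≤ (k : ℝ) ^ 3 * Real.sqrt (2 ^ k)) →
    (∀ j < m, ∀ (q : ℂ) (x : ℝ), 2 ^ (Nat.sqrt k) ≤ x → x ≤ 2 ^ (2 * k) →
      ¬ PlaneDense (sums F (j + 1)) q x ((k : ℝ) ^ 11)) →
    (∀ j < m, ∀ i : ℕ, k + K ≤ 2 * (i * Nat.sqrt k) → i * Nat.sqrt k ≤ 2 * k → ∀ q : ℂ,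
      ¬ LineDense (sums F (j + 1)) q 1 (2 ^ ((i + 1) * Nat.sqrt k) / (k : ℝ) ^ 11)
        (2 ^ ((i + 1) * Nat.sqrt k) / k)) →
    ∃ j < m, ∃ a : ℕ, (k : ℝ) ^ (1 - 1 / 400 : ℝ) ≤ a ∧ 24 * a ≤ k ∧ ∃ q β : ℂ, ‖β‖ = 1 ∧
      LineDense (sums F (j + 1)) q β (2 ^ (a + ⌊(k : ℝ) ^ (1 - 1 / 200 : ℝ)⌋₊ + 2))
        (2 ^ (12 * a) / 2 ^ 20) := by
  obtain ⟨η₁, hη₁, C, hC⟩ := runC
  obtain ⟨m, hm, kR, hR⟩ := range_exists hη₁ 7
  refine ⟨m, hm, fun K => ?_⟩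
  obtain ⟨kA, hA⟩ := runA
  obtain ⟨kB, hB⟩ := runB
  obtain ⟨kc, hacc⟩ := accounting ((K : ℝ) + 10)
  obtain ⟨k₀, hk₀⟩ := eventually_atTop.1 (asy m K C)
  refine ⟨max (max kR kA) (max (max kB kc) k₀), fun k hk F ha hb1 hb2 hc hd => ?_⟩
  have hkR : kR ≤ k := le_trans (le_trans (le_max_left _ _) (le_max_left _ _)) hk
  have hkA : kA ≤ k := le_trans (le_trans (le_max_right _ _) (le_max_left _ _)) hk
  have hkB : kB ≤ k :=
    le_trans (le_trans (le_trans (le_max_left _ _) (le_max_left _ _)) (le_max_right _ _)) hk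
  have hkc : kc ≤ k :=
    le_trans (le_trans (le_trans (le_max_right _ _) (le_max_left _ _)) (le_max_right _ _)) hk
  have hkk : k₀ ≤ k := le_trans (le_trans (le_max_right _ _) (le_max_right _ _)) hk
  obtain ⟨e1, e2, e3, e4, e5, e6, e7⟩ := hk₀ k hkk
  have hk1 : 1 ≤ k := by omega
  have hkr : (1 : ℝ) ≤ k := by exact_mod_cast hk1
  have hk0r : (0 : ℝ) < k := by linarith
  -- the logarithm of the square root
  have hs0 : 0 < Real.sqrt (2 ^ k) := Real.sqrt_pos.2 (by positivity)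
  have hslog : Real.log (Real.sqrt (2 ^ k)) = (k : ℝ) / 2 * Real.log 2 := by
    rw [Real.log_sqrt (by positivity), Real.log_pow]
    ring
  have hsle : Real.sqrt (2 ^ k) ≤ 2 ^ k := by
    rw [Real.sqrt_le_left (by positivity)]
    have : (1 : ℝ) ≤ 2 ^ k := one_le_pow₀ (by norm_num)
    nlinarith
  -- nonemptiness
  have hFc : 0 < F.card := by
    rcases Nat.eq_zero_or_pos F.card with h | h
    · rw [h] at hb1
      simp at hb1
      linarith
    · exact h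
  have hF : F.Nonempty := Finset.card_pos.1 hFc
  have hFcr : (0 : ℝ) < F.card := by exact_mod_cast hFc
  set Λ := Nat.sqrt k with hΛ
  have hΛ1 : 2 * Λ ≤ k := by
    have h1 : Λ * Λ ≤ k := Nat.sqrt_le k
    have h2 : Λ ≥ 4 := by
      rw [hΛ, ge_iff_le, Nat.le_sqrt]
      omega
    nlinarith
  have hΛ0 : 0 < Λ := by
    rw [hΛ]
    exact Nat.sqrt_pos.2 (by omega)
  set T := 2 * k / Λ with hT
  have hT1 : T * Λ ≤ 2 * k := Nat.div_mul_le_self _ _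
  have hT2 : 2 * k < (T + 1) * Λ := by
    have := Nat.lt_div_mul_add (a := 2 * k) hΛ0
    rw [add_mul, one_mul]
    exact this
  have hT3 : 3 * k ≤ 2 * (T * Λ) := by
    rw [add_mul, one_mul] at hT2
    omega
  -- everything lies in a box
  have hK2 : K < 2 ^ K := Nat.lt_two_pow_self
  have hbox : ∀ t : ℕ, k + K ≤ t → ∀ j ≤ m, ∀ z ∈ sums F j, z ∈ box t := by
    intro t ht j hj z hz
    obtain ⟨h1, h2, h3, h4⟩ := ha j hj z hz
    have h5 : (K : ℤ) * 2 ^ k < 2 ^ t := by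
      have h6 : K * 2 ^ k < 2 ^ t := by
        calc K * 2 ^ k < 2 ^ K * 2 ^ k := by
              exact Nat.mul_lt_mul_of_pos_right hK2 (by positivity)
          _ = 2 ^ (k + K) := by rw [← pow_add, add_comm]
          _ ≤ 2 ^ t := Nat.pow_le_pow_right (by norm_num) ht
      exact_mod_cast h6
    refine mem_box.2 ⟨⟨h1, lt_of_le_of_lt h2 h5⟩, ⟨h3, ?_⟩⟩
    have h7 : (z.2 : ℝ) ≤ K * 2 ^ k := h4.trans (by gcongr)
    have h8 : z.2 ≤ K * 2 ^ k := by exact_mod_cast h7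
    exact lt_of_le_of_lt h8 h5
  have hbox2 : ∀ j ≤ m, ∀ z ∈ sums F j, z ∈ box (2 * k) := hbox _ (by omega)
  have hTK : k + K ≤ T * Λ := by omega
  have hboxT : ∀ j ≤ m, ∀ z ∈ sums F j, z ∈ box (T * Λ) := hbox _ hTK
  -- entropies at scale zero
  have hlk : 0 ≤ Real.log k := Real.log_nonneg hkr
  have h0 : (k : ℝ) / 2 * Real.log 2 - 3 * Real.log k ≤ hh (pseq F 0) 0 := by
    rw [pseq_zero hF]
    have h1 := Real.log_le_log hs0 hb1
    rw [hslog, Real.log_mul (by positivity) hFcr.ne', Real.log_pow] at h1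
    push_cast at h1
    linarith
  have hup : ∀ j ≤ m, hh (pseq F j) 0 ≤ (k : ℝ) / 2 * Real.log 2 + 3 * Real.log k := by
    intro j hj
    refine (pseq_card hF j).trans ?_
    have hne : (sums F j).Nonempty := by
      by_contra hcon
      rw [Finset.not_nonempty_iff_eq_empty] at hcon
      have h1 := (pseq_prb hF j).sum_one
      rw [hcon] at h1
      simp at h1
    have hcp : (0 : ℝ) < (sums F j).card := by exact_mod_cast Finset.card_pos.2 hne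
    have h1 := Real.log_le_log hcp (hb2 j hj)
    rw [Real.log_mul (by positivity) hs0.ne', hslog, Real.log_pow] at h1
    push_cast at h1
    linarith
  have hstep : ∀ j < m, hh (pseq F j) 0 - 4 ≤ hh (pseq F (j + 1)) 0 := by
    intro j hj
    have h1 := pseq_mono hF (hbox2 j hj.le)
    linarith [h1.1, h1.2]
  have hlow : ∀ j ≤ m, (k : ℝ) / 2 * Real.log 2 - 3 * Real.log k - 4 * j ≤
      hh (pseq F j) 0 := by
    intro j
    induction j with
    | zero =>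
      intro _
      simpa using h0
    | succ j ih =>
      intro hj
      have h1 := ih (by omega)
      have h2 := hstep j (by omega)
      push_cast
      linarith
  have hdrop : ∀ t : ℕ, k + K ≤ t → ∀ j < m,
      drop (sums F j) (pseq F j) 0 t ≤ ((K : ℝ) + 10) * Real.log k := by
    intro t ht j hj
    have h1 := (pseq_mono hF (hbox t ht j hj.le)).2
    have h2 := hup (j + 1) hj
    have h3 := hlow j hj.le
    have h4 : (j : ℝ) ≤ m := by exact_mod_cast hj.le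
    have h5 : (0 : ℝ) ≤ K := Nat.cast_nonneg _
    nlinarith
  -- the range
  have hsum : ∑ j ∈ Finset.range m, drop (sums F j) (pseq F j) 0 (2 * k) ≤
      7 * Real.log k + 6 * m := by
    have h1 : ∑ j ∈ Finset.range m, drop (sums F j) (pseq F j) 0 (2 * k) ≤
        ∑ j ∈ Finset.range m, (hh (pseq F (j + 1)) 0 - hh (pseq F j) 0 + 4) :=
      Finset.sum_le_sum (fun j hj => (pseq_mono hF (hbox2 j (Finset.mem_range.1 hj).le)).2)
    rw [Finset.sum_add_distrib, Finset.sum_range_sub (fun j => hh (pseq F j) 0),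
      Finset.sum_const, Finset.card_range, nsmul_eq_mul] at h1
    have h2 := hup m le_rfl
    have h3 : (0 : ℝ) ≤ m := Nat.cast_nonneg _
    linarith
  obtain ⟨j, hj, a, ha1, ha2, ha3⟩ := hR k hkR (fun j => sums F j) (fun j => pseq F j)
    (fun j _ => pseq_prb hF j) hsum
  refine ⟨j, hj, a, ha1, ha2, ?_⟩
  set ℓ := ⌊(k : ℝ) ^ (1 - 1 / 200 : ℝ)⌋₊ with hℓ
  have hp := pseq_prb hF j
  -- accounting
  have hacc1 : ℓ * Real.log 2 - (k : ℝ) ^ (1 - 1 / 180 : ℝ) ≤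
      hh (pseq F j) a - hh (pseq F j) (a + ℓ) := by
    refine hacc k hkc (sums F j) (pseq F j) hp T hT1 ?_ ?_ ?_ ?_ ?_ ?_ a ℓ ?_
    · have h1 : (3 : ℝ) * k ≤ 2 * (T * Λ) := by exact_mod_cast hT3
      have h2 : 2 * (K : ℝ) + 40 ≤ k := by exact_mod_cast e3
      push_cast
      linarith
    · exact pseq_top hF (hboxT j hj.le)
    · have h1 := hlow j hj.le
      have h4 : (j : ℝ) ≤ m := by exact_mod_cast hj.le
      have h5 : (0 : ℝ) ≤ K := Nat.cast_nonneg _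
      nlinarith
    · exact hdrop _ hTK j hj
    · intro i hi hi1 hi2 hdr
      have he : (i + 1) * Λ = i * Λ + Λ := by ring
      rw [he] at hdr ⊢
      refine hA k hkA (sums F j) (pseq F j) hp (i * Λ) hdr (fun q w hw1 hw2 => ?_)
      refine hc j hj q w (le_trans ?_ hw1) (le_trans hw2 ?_)
      · exact pow_le_pow_right₀ (by norm_num) (Nat.le_mul_of_pos_left _ hi1)
      · refine pow_le_pow_right₀ (by norm_num) ?_
        rw [← he]
        exact le_trans (Nat.le_mul_of_pos_left _ (by norm_num)) (hi2.trans (by omega))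
    · intro i hi hi1 hdr
      have he : (i + 1) * Λ = i * Λ + Λ := by ring
      have hi2 : i * Λ ≤ 2 * k := le_trans (Nat.mul_le_mul_right _ hi.le) hT1
      have hd1 : k + K ≤ 2 * (i * Λ) := by
        have h1 : ((k + K : ℕ) : ℝ) ≤ ((2 * (i * Λ) : ℕ) : ℝ) := by
          push_cast
          have h5 : (0 : ℝ) ≤ K := Nat.cast_nonneg _
          push_cast at hi1
          linarith
        exact_mod_cast h1
      have hd2 := hd j hj i hd1 hi2
      rw [he] at hdr hd2 ⊢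
      refine hB k hkB (sums F j) (pseq F j) hp (i * Λ) ?_ hdr hd2
      intro x hx y hy
      obtain ⟨-, -, x3, x4⟩ := ha j hj.le x hx
      obtain ⟨-, -, y3, y4⟩ := ha j hj.le y hy
      have h6 : K * Real.sqrt (2 ^ k) ≤ 2 ^ (i * Λ) := by
        have h7 : ((K : ℝ) * Real.sqrt (2 ^ k)) ^ 2 ≤ ((2 : ℝ) ^ (i * Λ)) ^ 2 := by
          rw [mul_pow, Real.sq_sqrt (by positivity), ← pow_mul]
          have h8 : k + 2 * K ≤ i * Λ * 2 := by
            have h1 : ((k + 2 * K : ℕ) : ℝ) ≤ ((i * Λ * 2 : ℕ) : ℝ) := by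
              push_cast
              have h5 : (0 : ℝ) ≤ K := Nat.cast_nonneg _
              push_cast at hi1
              linarith
            exact_mod_cast h1
          have h9 : (K : ℝ) ≤ 2 ^ K := by exact_mod_cast hK2.le
          calc (K : ℝ) ^ 2 * 2 ^ k ≤ (2 ^ K) ^ 2 * 2 ^ k := by gcongr
            _ = 2 ^ (k + 2 * K) := by
                rw [← pow_mul, ← pow_add]
                ring_nf
            _ ≤ 2 ^ (i * Λ * 2) := pow_le_pow_right₀ (by norm_num) h8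
        exact le_of_sq_le_sq h7 (by positivity)
      rw [abs_le]
      have x5 : (x.2 : ℝ) ≤ 2 ^ (i * Λ) := x4.trans h6
      have y5 : (y.2 : ℝ) ≤ 2 ^ (i * Λ) := y4.trans h6
      have x6 : x.2 ≤ 2 ^ (i * Λ) := by exact_mod_cast x5
      have y6 : y.2 ≤ 2 ^ (i * Λ) := by exact_mod_cast y5
      constructor <;> omega
    · omega
  have hal : (a : ℝ) ≥ ℓ + C := by linarith
  have hal' : ℓ + C ≤ a := by exact_mod_cast hal
  have hlog12 : Nat.log 2 (12 * a) ≤ Nat.log 2 k := Nat.log_mono_right (by omega)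
  have hCl : C * (Nat.log 2 (12 * a) + 1) ≤ ℓ :=
    le_trans (Nat.mul_le_mul_left _ (by omega)) e7
  obtain ⟨q, β, hβ, hL⟩ := hC (sums F j) (pseq F j) hp a ℓ (12 * a) (by omega) hCl ha3
    (by linarith)
  exact ⟨q, β, hβ, hL⟩

end Pool.Agent.Work.MP_0d53be_an.Full
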