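import Pool.Agent.Work.MP_0d53be_an.Full.E.Drop
import Pool.Agent.Work.MP_0d53be_an.Full.C.Fan

/-!
# Z/Seq: the sequence of convolution squares

`pseq F 0` is uniform on `F`, `pseq F (j+1) = conv (sums F j) (pseq F j)`.
* `pseq_prb`: induction with `Prb.conv`.
* `pseq_zero`: `hh_unif`.
* `pseq_card`: `hh_zero_le`.
* `pseq_top`: `hh_top` with `o = 0`.
* `pseq_mono`: if `sums F j` and `sums F (j+1)` lie in `box t`: `0 ≤ drop ... 0 t`
  (`drop_nonneg`) `= (hh p_{j+1} 0 - hh p_{j+1} t) - (hh p_j 0 - hh p_j t)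
  ≤ hh p_{j+1} 0 - hh p_j 0 + hh p_j t ≤ hh p_{j+1} 0 - hh p_j 0 + 4` (`hh_nonneg` for `p_{j+1}` at `t`).
-/

set_option autoImplicit false

namespace Pool.Agent.Work.MP_0d53be_an.Full

open scoped Pointwise

open Classical in
/-- The sequence of the convolution squares. -/
noncomputable def pseq (F : Finset G) : ℕ → G → ℝ
  | 0 => fun z => if z ∈ F then 1 / (F.card : ℝ) else 0
  | j + 1 => conv (sums F j) (pseq F j)

theorem pseq_prb {F : Finset G} (hF : F.Nonempty) (j : ℕ) : Prb (sums F j) (pseq F j) := by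
  induction j with
  | zero =>
    have hn : (0 : ℝ) < F.card := by exact_mod_cast hF.card_pos
    refine ⟨fun z hz => ?_, fun z hz => ?_, ?_⟩
    · change z ∈ F at hz
      change 0 < (if z ∈ F then 1 / (F.card : ℝ) else 0)
      rw [if_pos hz]
      positivity
    · change z ∉ F at hz
      change (if z ∈ F then 1 / (F.card : ℝ) else 0) = 0
      rw [if_neg hz]
    · change ∑ z ∈ F, (if z ∈ F then 1 / (F.card : ℝ) else 0) = 1
      rw [Finset.sum_congr rfl fun z hz => if_pos hz, Finset.sum_const, nsmul_eq_mul]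
      field_simp
  | succ j ih => exact ih.conv

theorem pseq_zero {F : Finset G} (hF : F.Nonempty) : hh (pseq F 0) 0 = Real.log F.card := by
  refine hh_unif (pseq_prb hF 0) fun z hz => ?_
  change z ∈ F at hz
  change (if z ∈ F then 1 / (F.card : ℝ) else 0) = 1 / F.card
  rw [if_pos hz]

theorem pseq_card {F : Finset G} (hF : F.Nonempty) (j : ℕ) :
    hh (pseq F j) 0 ≤ Real.log (sums F j).card :=
  hh_zero_le (pseq_prb hF j)

theorem pseq_top {F : Finset G} (hF : F.Nonempty) {j t : ℕ} (h : ∀ z ∈ sums F j, z ∈ box t) :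
    hh (pseq F j) t ≤ 4 := by
  refine hh_top (pseq_prb hF j) (o := 0) fun z hz => ?_
  rw [sub_zero]
  exact h z hz

theorem pseq_mono {F : Finset G} (hF : F.Nonempty) {j t : ℕ} (h : ∀ z ∈ sums F j, z ∈ box t) :
    0 ≤ drop (sums F j) (pseq F j) 0 t ∧
      drop (sums F j) (pseq F j) 0 t ≤ hh (pseq F (j + 1)) 0 - hh (pseq F j) 0 + 4 := by
  refine ⟨drop_nonneg (pseq_prb hF j) (Nat.zero_le t), ?_⟩
  have h1 := hh_nonneg (pseq_prb hF (j + 1)) t
  have h2 := pseq_top hF h
  have h3 : drop (sums F j) (pseq F j) 0 t = (hh (pseq F (j + 1)) 0 - hh (pseq F (j + 1)) t) -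
    (hh (pseq F j) 0 - hh (pseq F j) t) := rfl
  rw [h3]
  linarith

end Pool.Agent.Work.MP_0d53be_an.Full
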